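import Pool.Agent.H2.L.R_seed8.H261R2.CM.JRen
import Pool.Agent.H2.L.R_seed8.H261R2.CM.F

/-!
# Reciprocal polynomials in several variables (task J, helper943)

`pair_iff`, `not_associated_of_isRelPrime` are in `JTor.lean`.
-/

set_option autoImplicit false

namespace Pool.Agent.H261R2.CM

noncomputable section

/-- J2: every polynomial without reciprocal nonconstant irreducible factor of Mahler measure `> 1`
has the Mahler measure of a polynomial coprime to its reciprocal. -/
theorem exists_coprime_recip {k : ℕ} (P : MvPolynomial (Fin k) ℤ) (hP : P ≠ 0)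
    (h : ∀ Q : MvPolynomial (Fin k) ℤ, Irreducible Q → Q ∣ P →
      Q.totalDegree = 0 ∨ mM Q = 1 ∨ ¬ Associated (recip Q) Q) :
    ∃ P' : MvPolynomial (Fin (k + 1)) ℤ, P' ≠ 0 ∧ IsRelPrime P' (recip P') ∧ mM P' = mM P := by
  obtain ⟨c, A, hc, hA, hAr, hm⟩ :=
    J.exists_coprime_recip_const (fun C D hC hD => mM_mul C D hC hD) P hP h
  obtain ⟨P', h1, h2, h3⟩ := J.with_const (fun C D hC hD => mM_mul C D hC hD) hA hAr c hc
  exact ⟨P', h1, h2, by rw [h3, hm]⟩

end

end Pool.Agent.H261R2.CM
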