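import Pool.Agent.H2.L.R_seed8.H261R2.CM.Defs

/-!
# Reciprocal polynomials in several variables: definition
-/

set_option autoImplicit false

namespace Pool.Agent.H261R2.CM

noncomputable section

/-- The reciprocal polynomial `∏ X_i ^ (deg_i P) * P (1/X_1, …, 1/X_k)`. -/
def recip {k : ℕ} (P : MvPolynomial (Fin k) ℤ) : MvPolynomial (Fin k) ℤ :=
  ∑ s ∈ P.support, MvPolynomial.monomial
    (Finsupp.equivFunOnFinite.symm fun i => P.degreeOf i - s i) (P.coeff s)

end

end Pool.Agent.H261R2.CM
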