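import Mathlib
import Pool.Agent.H2.L.R_seed8.H261R2.CM.JTor

/-!
# Reciprocal polynomials in several variables: one more variable (task J, helper943)
-/

set_option autoImplicit false

namespace Pool.Agent.H261R2.CM

open MvPolynomial MeasureTheory

noncomputable section

namespace J

variable {k : ℕ}

theorem degreeOf_zero_of_dvd {π A : MvPolynomial (Fin k) ℤ} (hA : A ≠ 0) (h : π ∣ A) (i : Fin k)
    (hi : degreeOf i A = 0) : degreeOf i π = 0 := by
  obtain ⟨R, rfl⟩ := h
  have h1 := degreeOf_mul_eq (n := i) (left_ne_zero_of_mul hA) (right_ne_zero_of_mul hA)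
  omega

theorem eq_C_of_degreeOf_zero {π : MvPolynomial (Fin k) ℤ} (h : ∀ i, degreeOf i π = 0) :
    π = C (coeff 0 π) := by
  classical
  ext s
  rw [coeff_C]
  split_ifs with hs
  · rw [hs]
  · by_contra hc
    apply hs
    have hm : s ∈ π.support := mem_support_iff.2 hc
    ext i
    have := monomial_le_degreeOf i hm
    rw [h i] at this
    simpa using (Nat.le_zero.1 this).symm

theorem isUnit_of_dvd_of_coeff {π F : MvPolynomial (Fin k) ℤ} (h : ∀ i, degreeOf i π = 0)
    (hF : π ∣ F) (m : Fin k →₀ ℕ) (hm : coeff m F = 1) : IsUnit π := by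
  rw [eq_C_of_degreeOf_zero h] at hF ⊢
  have h1 := (C_dvd_iff_dvd_coeff _ _).1 hF m
  rw [hm] at h1
  exact (isUnit_of_dvd_one h1).map C

theorem degreeOf_zero_rename (A : MvPolynomial (Fin k) ℤ) :
    degreeOf 0 (rename Fin.succ A) = 0 := by
  classical
  by_contra h
  have h1 : ∃ m ∈ (rename Fin.succ A).support, m 0 ≠ 0 := by
    by_contra h2
    push Not at h2
    apply h
    apply Nat.le_zero.1
    exact degreeOf_le_iff.2 fun m hm => (h2 m hm).le
  obtain ⟨m, hm, hm0⟩ := h1
  have h3 : (0 : Fin (k + 1)) ∈ (rename Fin.succ A).vars := by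
    rw [mem_vars_iff_mem_support]
    exact ⟨m, hm, Finsupp.mem_support_iff.2 hm0⟩
  have h4 := vars_rename Fin.succ A h3
  rw [Finset.mem_image] at h4
  obtain ⟨j, _, hj⟩ := h4
  exact Fin.succ_ne_zero j hj

theorem exists_rename {π : MvPolynomial (Fin (k + 1)) ℤ} (h : degreeOf 0 π = 0) :
    ∃ π₀ : MvPolynomial (Fin k) ℤ, rename Fin.succ π₀ = π := by
  apply exists_rename_eq_of_vars_subset_range π Fin.succ (Fin.succ_injective k)
  intro i hi
  rw [Finset.mem_coe, mem_vars_iff_mem_support] at hi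
  obtain ⟨d, hd, hdi⟩ := hi
  rw [Finsupp.mem_support_iff] at hdi
  have hi0 : i ≠ 0 := by
    rintro rfl
    have := monomial_le_degreeOf 0 hd
    omega
  exact ⟨i.pred hi0, Fin.succ_pred i hi0⟩

/-- the retraction `X_0 ↦ 0` -/
def retr : MvPolynomial (Fin (k + 1)) ℤ →ₐ[ℤ] MvPolynomial (Fin k) ℤ :=
  aeval (Fin.cases 0 X)

theorem retr_rename (A : MvPolynomial (Fin k) ℤ) : retr (rename Fin.succ A) = A := by
  unfold retr
  rw [aeval_rename]
  have : (Fin.cases 0 X : Fin (k + 1) → MvPolynomial (Fin k) ℤ) ∘ Fin.succ = X := by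
    funext i
    simp
  rw [this, aeval_X_left_apply]

theorem relPrime_rename {A B : MvPolynomial (Fin k) ℤ} (hA : A ≠ 0) (h : IsRelPrime A B) :
    IsRelPrime (rename Fin.succ A) (rename Fin.succ B) := by
  intro π h1 h2
  have hrA : rename Fin.succ A ≠ 0 := by
    intro h0
    exact hA (rename_injective _ (Fin.succ_injective k) (by rw [h0, map_zero]))
  obtain ⟨π₀, rfl⟩ := exists_rename (degreeOf_zero_of_dvd hrA h1 0 (degreeOf_zero_rename A))
  have h3 := map_dvd retr h1
  have h4 := map_dvd retr h2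
  rw [retr_rename, retr_rename] at h3 h4
  exact (h h3 h4).map (rename Fin.succ)

theorem rename_ne_zero {A : MvPolynomial (Fin k) ℤ} (hA : A ≠ 0) :
    rename Fin.succ A ≠ 0 := by
  intro h0
  exact hA (rename_injective _ (Fin.succ_injective k) (by rw [h0, map_zero]))

theorem tv_rename (A : MvPolynomial (Fin k) ℤ) (t : Fin (k + 1) → ℝ) :
    tv (rename Fin.succ A) t = tv A (fun j => t j.succ) := by
  rw [tv_eq, tv_eq]
  unfold tvh
  rw [RingHom.comp_apply, RingHom.comp_apply, map_rename, eval_rename]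
  rfl

/-- the linear polynomial `X_0 + c` -/
def LL (k c : ℕ) : MvPolynomial (Fin (k + 1)) ℤ := X 0 + C (c : ℤ)

/-- its reciprocal `c X_0 + 1` -/
def LR (k c : ℕ) : MvPolynomial (Fin (k + 1)) ℤ := C (c : ℤ) * X 0 + 1

theorem coeff_LL (c : ℕ) : coeff (Finsupp.single 0 1) (LL k c) = 1 := by
  classical
  unfold LL
  have h : ¬ ((0 : Fin (k + 1) →₀ ℕ) = Finsupp.single 0 1) := by
    intro h
    have := DFunLike.congr_fun h 0
    simp at this
  rw [coeff_add, coeff_C, coeff_X, if_pos rfl, if_neg h, add_zero]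

theorem coeff_LR (c : ℕ) : coeff 0 (LR k c) = 1 := by
  classical
  unfold LR
  have h : ¬ (Finsupp.single 0 1 = (0 : Fin (k + 1) →₀ ℕ)) := by
    intro h
    have := DFunLike.congr_fun h 0
    simp at this
  rw [coeff_add, coeff_C_mul, coeff_X, if_neg h, mul_zero, zero_add, coeff_zero_one]

theorem LL_ne_zero (c : ℕ) : LL k c ≠ 0 := by
  intro h
  have := coeff_LL (k := k) c
  rw [h, coeff_zero] at this
  exact zero_ne_one this

theorem LR_ne_zero (c : ℕ) : LR k c ≠ 0 := by
  intro h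
  have := coeff_LR (k := k) c
  rw [h, coeff_zero] at this
  exact zero_ne_one this

theorem degreeOf_LL (c : ℕ) (j : Fin k) : degreeOf j.succ (LL k c) = 0 := by
  classical
  apply Nat.le_zero.1
  unfold LL
  refine (degreeOf_add_le _ _ _).trans ?_
  rw [degreeOf_X, degreeOf_C, if_neg (Fin.succ_ne_zero j), max_self]

theorem degreeOf_LR (c : ℕ) (j : Fin k) : degreeOf j.succ (LR k c) = 0 := by
  classical
  apply Nat.le_zero.1
  unfold LR
  refine (degreeOf_add_le _ _ _).trans ?_
  have h1 := degreeOf_C_mul_le (X 0 : MvPolynomial (Fin (k + 1)) ℤ) j.succ (c : ℤ)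
  rw [degreeOf_X, if_neg (Fin.succ_ne_zero j)] at h1
  rw [Nat.le_zero.1 h1, degreeOf_one, max_self]

theorem relPrime_LL_LR {c : ℕ} (hc : 2 ≤ c) : IsRelPrime (LL k c) (LR k c) := by
  intro π h1 h2
  have h3 : π ∣ C (1 - (c : ℤ) ^ 2) := by
    have : (C (1 - (c : ℤ) ^ 2) : MvPolynomial (Fin (k + 1)) ℤ) =
        LR k c - C (c : ℤ) * LL k c := by
      unfold LR LL
      rw [map_sub, map_pow, C_1]
      ring
    rw [this]
    exact dvd_sub h2 (h1.mul_left _)
  have hne : (C (1 - (c : ℤ) ^ 2) : MvPolynomial (Fin (k + 1)) ℤ) ≠ 0 := by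
    rw [Ne, C_eq_zero]
    have : (2 : ℤ) ≤ c := by exact_mod_cast hc
    nlinarith
  refine isUnit_of_dvd_of_coeff (fun i => ?_) h1 (Finsupp.single 0 1) (coeff_LL c)
  exact degreeOf_zero_of_dvd hne h3 i (degreeOf_C _ _)

theorem relPrime_rename_LR (A : MvPolynomial (Fin k) ℤ) (hA : A ≠ 0) (c : ℕ) :
    IsRelPrime (rename Fin.succ A) (LR k c) := by
  intro π h1 h2
  refine isUnit_of_dvd_of_coeff (fun i => ?_) h2 0 (coeff_LR c)
  refine Fin.cases ?_ (fun j => ?_) i
  · exact degreeOf_zero_of_dvd (rename_ne_zero hA) h1 0 (degreeOf_zero_rename A)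
  · exact degreeOf_zero_of_dvd (LR_ne_zero c) h2 _ (degreeOf_LR c j)

theorem relPrime_LL_rename (A : MvPolynomial (Fin k) ℤ) (hA : A ≠ 0) (c : ℕ) :
    IsRelPrime (LL k c) (rename Fin.succ A) := by
  intro π h1 h2
  refine isUnit_of_dvd_of_coeff (fun i => ?_) h1 (Finsupp.single 0 1) (coeff_LL c)
  refine Fin.cases ?_ (fun j => ?_) i
  · exact degreeOf_zero_of_dvd (rename_ne_zero hA) h2 0 (degreeOf_zero_rename A)
  · exact degreeOf_zero_of_dvd (LL_ne_zero c) h1 _ (degreeOf_LL c j)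

theorem norm_LL_LR (c : ℕ) (t : Fin (k + 1) → ℝ) : ‖tv (LL k c) t‖ = ‖tv (LR k c) t‖ := by
  unfold LL LR
  rw [tv_add, tv_add, tv_mul, tv_one, tv_X, tv_C]
  have hz : zz t 0 * (starRingEnd ℂ) (zz t 0) = 1 := by
    rw [Complex.mul_conj, Complex.normSq_eq_norm_sq, norm_zz]
    simp
  have h1 : ((c : ℤ) : ℂ) * zz t 0 + 1 =
      zz t 0 * (starRingEnd ℂ) (zz t 0 + ((c : ℤ) : ℂ)) := by
    rw [map_add, mul_add, hz]
    have : (starRingEnd ℂ) (((c : ℤ) : ℂ)) = ((c : ℤ) : ℂ) := by
      rw [← Complex.ofReal_intCast, Complex.conj_ofReal]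
    rw [this]; ring
  rw [h1, norm_mul, norm_zz, one_mul, RCLike.norm_conj]

/-- integral over the cube of a product of functions of `t 0` and of the other coordinates -/
theorem cube_split (f : ℝ → ℝ) (G : (Fin k → ℝ) → ℝ) :
    ∫ t in Set.Icc (0 : Fin (k + 1) → ℝ) 1, f (t 0) * G (fun j => t j.succ) =
      (∫ s in Set.Icc (0 : ℝ) 1, f s) * ∫ y in Set.Icc (0 : Fin k → ℝ) 1, G y := by
  have hmp := volume_preserving_piFinSuccAbove (fun _ : Fin (k + 1) => ℝ) 0
  have h1 : Set.Icc (0 : Fin (k + 1) → ℝ) 1 =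
      (MeasurableEquiv.piFinSuccAbove (fun _ : Fin (k + 1) => ℝ) 0) ⁻¹'
        (Set.Icc (0 : ℝ) 1 ×ˢ Set.Icc (0 : Fin k → ℝ) 1) := by
    ext t
    simp only [Set.mem_Icc, Set.mem_preimage, Set.mem_prod, Pi.le_def,
      MeasurableEquiv.piFinSuccAbove_apply, Fin.insertNthEquiv_symm_apply, Pi.zero_apply,
      Pi.one_apply, Fin.forall_fin_succ, Fin.removeNth, Fin.zero_succAbove]
    tauto
  rw [h1]
  have h2 := hmp.setIntegral_preimage_emb (MeasurableEquiv.measurableEmbedding _)
    (fun y : ℝ × (Fin k → ℝ) => f y.1 * G y.2) (Set.Icc (0 : ℝ) 1 ×ˢ Set.Icc (0 : Fin k → ℝ) 1)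
  have h3 := setIntegral_prod_mul (μ := (volume : Measure ℝ))
    (ν := (volume : Measure (Fin k → ℝ))) f G (Set.Icc (0 : ℝ) 1) (Set.Icc (0 : Fin k → ℝ) 1)
  rw [← Measure.volume_eq_prod] at h3
  rw [h3] at h2
  rw [← h2]
  rfl

theorem vol_cube : volume.real (Set.Icc (0 : Fin k → ℝ) 1) = 1 := by
  rw [measureReal_def, Real.volume_Icc_pi]
  simp

theorem mM_rename (A : MvPolynomial (Fin k) ℤ) : mM (rename Fin.succ A) = mM A := by
  unfold mM
  simp_rw [tv_rename]
  have h := cube_split (k := k) (fun _ => 1) (fun y => Real.log ‖tv A y‖)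
  simp only [one_mul] at h
  rw [h]
  have h1 : (∫ _ in Set.Icc (0 : ℝ) 1, (1 : ℝ)) = 1 := by
    rw [setIntegral_const, measureReal_def, Real.volume_Icc]
    simp
  rw [h1, one_mul]

theorem int_log_add {c : ℕ} (hc : 2 ≤ c) :
    ∫ s in Set.Icc (0 : ℝ) 1,
      Real.log ‖Complex.exp (2 * (Real.pi : ℂ) * Complex.I * ((s : ℝ) : ℂ)) + ((c : ℤ) : ℂ)‖ =
        Real.log c := by
  have h1 := circleAverage_log_norm_sub_const_eq_posLog (a := -((c : ℤ) : ℂ))
  rw [Real.circleAverage_def] at h1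
  have h2 : ‖-((c : ℤ) : ℂ)‖ = (c : ℝ) := by
    rw [norm_neg]; simp
  have hc1 : (1 : ℝ) ≤ c := by exact_mod_cast (by omega : 1 ≤ c)
  rw [h2, Real.posLog_eq_log (by rw [abs_of_nonneg (by linarith)]; exact hc1)] at h1
  rw [← h1, integral_Icc_eq_integral_Ioc, ← intervalIntegral.integral_of_le zero_le_one]
  have h3 := intervalIntegral.integral_comp_mul_left (a := 0) (b := 1) (c := 2 * Real.pi)
    (fun θ : ℝ => Real.log ‖circleMap 0 1 θ - -((c : ℤ) : ℂ)‖) (by positivity)
  rw [mul_zero, mul_one] at h3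
  rw [← h3]
  apply intervalIntegral.integral_congr
  intro s _
  simp only [circleMap, zero_add, Complex.ofReal_one, one_mul, sub_neg_eq_add]
  congr 4
  push_cast
  ring

theorem mM_LL {c : ℕ} (hc : 2 ≤ c) : mM (LL k c) = c := by
  unfold mM
  have h0 : ∀ t : Fin (k + 1) → ℝ, Real.log ‖tv (LL k c) t‖ =
      Real.log ‖Complex.exp (2 * (Real.pi : ℂ) * Complex.I * ((t 0 : ℝ) : ℂ)) + ((c : ℤ) : ℂ)‖ *
        (fun _ : Fin k → ℝ => (1 : ℝ)) (fun j => t j.succ) := by
    intro t
    unfold LL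
    rw [tv_add, tv_X, tv_C, mul_one]
    rfl
  simp_rw [h0]
  rw [cube_split (k := k)
    (fun s => Real.log ‖Complex.exp (2 * (Real.pi : ℂ) * Complex.I * ((s : ℝ) : ℂ)) +
      ((c : ℤ) : ℂ)‖) (fun _ => 1), int_log_add hc, setIntegral_const, vol_cube]
  have hc0 : (0 : ℝ) < c := by exact_mod_cast (by omega : 0 < c)
  simp [Real.exp_log hc0]

/-- adding the constant factor -/
theorem with_const (hmul : ∀ (C D : MvPolynomial (Fin (k + 1)) ℤ), C ≠ 0 → D ≠ 0 →
    mM (C * D) = mM C * mM D) {A : MvPolynomial (Fin k) ℤ} (hA : A ≠ 0)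
    (h : IsRelPrime A (recip A)) (c : ℕ) (hc : 1 ≤ c) :
    ∃ P' : MvPolynomial (Fin (k + 1)) ℤ, P' ≠ 0 ∧ IsRelPrime P' (recip P') ∧
      mM P' = c * mM A := by
  rcases Nat.lt_or_ge 1 c with h2 | h2
  · have hne : rename Fin.succ A * LL k c ≠ 0 := mul_ne_zero (rename_ne_zero hA) (LL_ne_zero c)
    refine ⟨rename Fin.succ A * LL k c, hne, ?_, ?_⟩
    · refine ((pair_iff _).1 ⟨rename Fin.succ (recip A) * LR k c, hne,
        mul_ne_zero (rename_ne_zero (recip_ne_zero hA)) (LR_ne_zero c), ?_, ?_⟩).2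
      · refine IsRelPrime.mul_left ?_ ?_
        · exact IsRelPrime.mul_right (relPrime_rename hA h) (relPrime_rename_LR A hA c)
        · exact IsRelPrime.mul_right (relPrime_LL_rename _ (recip_ne_zero hA) c)
            (relPrime_LL_LR h2)
      · intro t
        rw [norm_tv_mul, norm_tv_mul, tv_rename, tv_rename, norm_tv_recip, norm_LL_LR]
    · rw [hmul _ _ (rename_ne_zero hA) (LL_ne_zero c), mM_rename, mM_LL h2, mul_comm]
  · have hc1 : c = 1 := le_antisymm h2 hc
    refine ⟨rename Fin.succ A, rename_ne_zero hA, ?_, ?_⟩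
    · refine ((pair_iff _).1 ⟨rename Fin.succ (recip A), rename_ne_zero hA,
        rename_ne_zero (recip_ne_zero hA), relPrime_rename hA h, ?_⟩).2
      intro t
      rw [tv_rename, tv_rename, norm_tv_recip]
    · rw [mM_rename, hc1, Nat.cast_one, one_mul]

/-- the same number of variables, up to a constant factor -/
theorem exists_coprime_recip_const (hmul : ∀ (C D : MvPolynomial (Fin k) ℤ), C ≠ 0 → D ≠ 0 →
    mM (C * D) = mM C * mM D) (P : MvPolynomial (Fin k) ℤ) :
    P ≠ 0 → (∀ Q : MvPolynomial (Fin k) ℤ, Irreducible Q → Q ∣ P →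
      Q.totalDegree = 0 ∨ mM Q = 1 ∨ ¬ Associated (recip Q) Q) →
    ∃ (c : ℕ) (A : MvPolynomial (Fin k) ℤ), 1 ≤ c ∧ A ≠ 0 ∧ IsRelPrime A (recip A) ∧
      mM P = c * mM A := by
  induction P using UniqueFactorizationMonoid.induction_on_prime with
  | h₁ => intro h; exact absurd rfl h
  | h₂ x hx =>
    intro _ _
    refine ⟨1, 1, le_refl 1, one_ne_zero, isRelPrime_one_left, ?_⟩
    rw [Nat.cast_one, one_mul]
    exact mM_associated (associated_one_iff_isUnit.2 hx)
  | h₃ a p ha hp ih =>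
    intro hpa h
    obtain ⟨c, A, hc, hA, hAr, hm⟩ := ih ha fun Q hQ hQa => h Q hQ (hQa.mul_left p)
    have hpi := hp.irreducible
    have hmm : mM (p * a) = mM p * (c * mM A) := by rw [hmul p a hp.ne_zero ha, hm]
    have case1 : mM p = 1 → ∃ (c : ℕ) (A : MvPolynomial (Fin k) ℤ), 1 ≤ c ∧ A ≠ 0 ∧
        IsRelPrime A (recip A) ∧ mM (p * a) = c * mM A := by
      intro h1
      exact ⟨c, A, hc, hA, hAr, by rw [hmm, h1, one_mul]⟩
    rcases h p hpi (dvd_mul_right p a) with h1 | h1 | h1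
    · have h2 := totalDegree_eq_zero_iff_eq_C.1 h1
      have hb : coeff 0 p ≠ 0 := by
        intro h3
        rw [h3, C_0] at h2
        exact hp.ne_zero h2
      refine ⟨c * (coeff 0 p).natAbs, A, ?_, hA, hAr, ?_⟩
      · exact Nat.mul_pos hc (Int.natAbs_pos.2 hb)
      · rw [hmm, h2, mM_C hb, coeff_C, if_pos rfl]
        push_cast
        ring
    · exact case1 h1
    · by_cases hX : ∃ i, Associated p (X i)
      · obtain ⟨i, hi⟩ := hX
        exact case1 ((mM_associated hi).trans (mM_X i))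
      · push Not at hX
        have hq := irreducible_recip hpi hX
        have hrr := recip_recip hpi hX
        have hpq : IsRelPrime p (recip p) := by
          rw [hpi.isRelPrime_iff_not_dvd]
          intro h2
          exact h1 ((hpi.dvd_irreducible_iff_associated hq).1 h2).symm
        by_cases hqA : recip p ∣ A
        · have hqne : recip p ≠ 0 := hq.ne_zero
          refine ⟨c, recip p * A, hc, mul_ne_zero hqne hA, ?_, ?_⟩
          · rw [recip_mul hqne hA, hrr]
            refine IsRelPrime.mul_left (IsRelPrime.mul_right hpq.symm ?_)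
              (IsRelPrime.mul_right ?_ hAr)
            · rw [hq.isRelPrime_iff_not_dvd]
              intro h2
              exact hq.not_isUnit (hAr hqA h2)
            · refine IsRelPrime.symm ?_
              rw [hpi.isRelPrime_iff_not_dvd]
              intro h2
              exact hq.not_isUnit (hAr hqA (recip_dvd hA h2))
          · rw [hmm, hmul _ _ hqne hA, mM_recip]; ring
        · refine ⟨c, p * A, hc, mul_ne_zero hp.ne_zero hA, ?_, ?_⟩
          · rw [recip_mul hp.ne_zero hA]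
            refine IsRelPrime.mul_left (IsRelPrime.mul_right hpq ?_)
              (IsRelPrime.mul_right ?_ hAr)
            · rw [hpi.isRelPrime_iff_not_dvd]
              intro h2
              exact hqA ((recip_dvd (recip_ne_zero hA) h2).trans (recip_recip_dvd A))
            · refine IsRelPrime.symm ?_
              rw [hq.isRelPrime_iff_not_dvd]
              exact hqA
          · rw [hmm, hmul _ _ hp.ne_zero hA]; ring

end J

end

end Pool.Agent.H261R2.CM
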