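import Mathlib
import Pool.Agent.H2.L.R_seed8.H261R2.CM.Defs2
import Pool.Agent.H2.L.R_seed8.H261R2.CM.F
import Pool.Agent.H2.L.R_seed8.H261R2.CM.JRen

/-!
# Bounded degree in one variable (task K8, helper143)
-/

set_option autoImplicit false

namespace Pool.Agent.H261R2.CM

open Polynomial Filter MeasureTheory

noncomputable section

namespace K8

variable {k : ℕ}

/-- the substitution `X_i ↦ X_i v` -/
def gsub (i : Fin k) : MvPolynomial (Fin k) ℤ →ₐ[ℤ] MvPolynomial (Fin (k + 1)) ℤ :=
  MvPolynomial.aeval fun l =>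
    if l = i then MvPolynomial.X l.succ * MvPolynomial.X 0 else MvPolynomial.X l.succ

/-- the substitution `X_i ↦ 0` -/
def zsub (i : Fin k) : MvPolynomial (Fin k) ℤ →ₐ[ℤ] MvPolynomial (Fin k) ℤ :=
  MvPolynomial.aeval fun l => if l = i then 0 else MvPolynomial.X l

theorem retr_gsub (i : Fin k) (F : MvPolynomial (Fin k) ℤ) :
    J.retr (gsub i F) = zsub i F := by
  have h : (J.retr.comp (gsub i)) = zsub i := by
    apply MvPolynomial.algHom_ext
    intro l
    by_cases hl : l = i
    · simp [gsub, zsub, J.retr, hl]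
    · simp [gsub, zsub, J.retr, hl]
  exact DFunLike.congr_fun h F

theorem X_dvd_sub_zsub (i : Fin k) (F : MvPolynomial (Fin k) ℤ) :
    MvPolynomial.X i ∣ F - zsub i F := by
  induction F using MvPolynomial.induction_on with
  | C a => simp [zsub]
  | add p q hp hq =>
    have : p + q - zsub i (p + q) = (p - zsub i p) + (q - zsub i q) := by rw [map_add]; ring
    rw [this]; exact dvd_add hp hq
  | mul_X p l hp =>
    rw [map_mul]
    by_cases h : l = i
    · subst h
      have : zsub l (MvPolynomial.X l) = 0 := by simp [zsub]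
      rw [this, mul_zero, sub_zero]
      exact dvd_mul_left _ _
    · have : zsub i (MvPolynomial.X l) = MvPolynomial.X l := by simp [zsub, h]
      rw [this, ← sub_mul]
      exact hp.mul_right _

theorem degreeOf_zsub (i : Fin k) (F : MvPolynomial (Fin k) ℤ) :
    (zsub i F).degreeOf i = 0 := by
  classical
  apply Nat.le_zero.1
  induction F using MvPolynomial.induction_on with
  | C a =>
    have : zsub i (MvPolynomial.C a) = MvPolynomial.C a := by
      unfold zsub; rw [MvPolynomial.aeval_C]; rfl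
    rw [this, MvPolynomial.degreeOf_C]
  | add p q hp hq =>
    rw [map_add]
    refine (MvPolynomial.degreeOf_add_le _ _ _).trans ?_
    exact max_le hp hq
  | mul_X p l hp =>
    rw [map_mul]
    refine (MvPolynomial.degreeOf_mul_le _ _ _).trans ?_
    have : (zsub i (MvPolynomial.X l)).degreeOf i ≤ 0 := by
      by_cases h : l = i
      · simp [zsub, h]
      · have : zsub i (MvPolynomial.X l) = MvPolynomial.X l := by simp [zsub, h]
        rw [this, MvPolynomial.degreeOf_X, if_neg (Ne.symm h)]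
    omega

theorem zsub_ne_zero {i : Fin k} {F : MvPolynomial (Fin k) ℤ} (hX : ¬ MvPolynomial.X i ∣ F) :
    zsub i F ≠ 0 := by
  intro h
  have := X_dvd_sub_zsub i F
  rw [h, sub_zero] at this
  exact hX this

theorem gsub_ne_zero {i : Fin k} {F : MvPolynomial (Fin k) ℤ} (hX : ¬ MvPolynomial.X i ∣ F) :
    gsub i F ≠ 0 := by
  intro h
  have := retr_gsub i F
  rw [h, map_zero] at this
  exact zsub_ne_zero hX this.symm

theorem relPrime_gsub {i : Fin k} {F : MvPolynomial (Fin k) ℤ} (hF : F ≠ 0)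
    (hX : ¬ MvPolynomial.X i ∣ F) (hprim : ∀ Q, Q ∣ F → Q.degreeOf i = 0 → IsUnit Q) :
    IsRelPrime (MvPolynomial.rename Fin.succ F) (gsub i F) := by
  intro π h1 h2
  obtain ⟨π₀, rfl⟩ := J.exists_rename
    (J.degreeOf_zero_of_dvd (J.rename_ne_zero hF) h1 0 (J.degreeOf_zero_rename F))
  have h3 := map_dvd J.retr h1
  have h4 := map_dvd J.retr h2
  rw [J.retr_rename] at h3 h4
  rw [J.retr_rename] at h3
  rw [retr_gsub] at h4
  have h5 := J.degreeOf_zero_of_dvd (zsub_ne_zero hX) h4 i (degreeOf_zsub i F)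
  exact (hprim π₀ h3 h5).map (MvPolynomial.rename Fin.succ)

/-! ### slices -/

/-- the one-variable polynomial in `X_i` -/
def slice (x : Fin k → ℝ) (i : Fin k) : MvPolynomial (Fin k) ℤ →+* ℂ[X] :=
  MvPolynomial.eval₂Hom (Int.castRingHom ℂ[X]) fun l => if l = i then X else C (J.zz x l)

theorem eval_slice (x : Fin k → ℝ) (i : Fin k) (F : MvPolynomial (Fin k) ℤ) (w : ℝ) :
    (slice x i F).eval (ez w) = tv F (Function.update x i w) := by
  have h : (Polynomial.evalRingHom (ez w)).comp (slice x i) = J.tvh (Function.update x i w) := by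
    apply MvPolynomial.ringHom_ext
    · intro a
      simp [slice, J.tvh]
    · intro l
      by_cases hl : l = i
      · subst hl
        simp [slice, J.tvh, J.zz, ez]
      · simp [slice, J.tvh, J.zz, hl]
  exact DFunLike.congr_fun h F

theorem natDegree_slice (x : Fin k → ℝ) (i : Fin k) (F : MvPolynomial (Fin k) ℤ) :
    (slice x i F).natDegree ≤ F.degreeOf i := by
  unfold slice
  rw [MvPolynomial.coe_eval₂Hom, MvPolynomial.eval₂_eq']
  refine Polynomial.natDegree_sum_le_of_forall_le _ _ fun d hd => ?_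
  have h1 : (∏ l, (if l = i then (X : ℂ[X]) else C (J.zz x l)) ^ d l).natDegree ≤ d i := by
    refine (Polynomial.natDegree_prod_le _ _).trans ?_
    rw [Finset.sum_eq_single i]
    · simp
    · intro l _ hl
      rw [if_neg hl, ← C_pow, natDegree_C]
    · simp
  have h2 : ((Int.castRingHom ℂ[X]) (MvPolynomial.coeff d F)).natDegree = 0 := by
    rw [eq_intCast, Polynomial.natDegree_intCast]
  refine (Polynomial.natDegree_mul_le).trans ?_
  rw [h2, zero_add]
  exact h1.trans (MvPolynomial.monomial_le_degreeOf i hd)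

theorem norm_ez (w : ℝ) : ‖ez w‖ = 1 := by
  unfold ez
  have : 2 * (Real.pi : ℂ) * Complex.I * (w : ℂ) = ((2 * Real.pi * w : ℝ) : ℂ) * Complex.I := by
    push_cast; ring
  rw [this, Complex.norm_exp_ofReal_mul_I]

theorem norm_eval_le (p : ℂ[X]) (m : ℕ) (hm : p.natDegree ≤ m) (w : ℝ) :
    ‖p.eval (ez w)‖ ≤ 2 ^ m * p.mahlerMeasure := by
  rw [Polynomial.eval_eq_sum_range]
  refine (norm_sum_le _ _).trans ?_
  have h1 : ∀ j ∈ Finset.range (p.natDegree + 1), ‖p.coeff j * ez w ^ j‖ ≤
      (p.natDegree.choose j) * p.mahlerMeasure := by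
    intro j _
    rw [norm_mul, norm_pow, norm_ez, one_pow, mul_one]
    exact Polynomial.norm_coeff_le_choose_mul_mahlerMeasure j p
  refine (Finset.sum_le_sum h1).trans ?_
  rw [← Finset.sum_mul, ← Nat.cast_sum, Nat.sum_range_choose]
  push_cast
  refine mul_le_mul_of_nonneg_right ?_ p.mahlerMeasure_nonneg
  exact pow_le_pow_right₀ (by norm_num) hm

theorem log_mahler (p : ℂ[X]) :
    Real.log p.mahlerMeasure = ∫ w in Set.Icc (0:ℝ) 1, Real.log ‖p.eval (ez w)‖ := by
  rw [← Polynomial.logMahlerMeasure_eq_log_MahlerMeasure, Polynomial.logMahlerMeasure_def,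
    Real.circleAverage_def, integral_Icc_eq_integral_Ioc,
    ← intervalIntegral.integral_of_le zero_le_one]
  have := intervalIntegral.integral_comp_mul_left (a := (0:ℝ)) (b := 1)
    (fun θ => Real.log ‖p.eval (circleMap 0 1 θ)‖) (c := 2 * Real.pi) (by positivity)
  simp only [mul_zero, mul_one, smul_eq_mul] at this
  rw [smul_eq_mul, ← this]
  refine intervalIntegral.integral_congr fun t _ => ?_
  simp only [ez, circleMap, zero_add, Complex.ofReal_one, one_mul]
  push_cast
  congr 4
  ring_nf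

theorem log_bound {F : MvPolynomial (Fin k) ℤ} {i : Fin k} {m : ℕ} (hm : F.degreeOf i ≤ m)
    (x : Fin k → ℝ) (v : ℝ) (hx : tv F x ≠ 0) :
    Real.log (max ‖tv F x‖ ‖tv F (Function.update x i v)‖) ≤
      m * Real.log 2 + ∫ w in Set.Icc (0:ℝ) 1, Real.log ‖tv F (Function.update x i w)‖ := by
  set p := slice x i F with hp
  have h0 : tv F x = p.eval (ez (x i)) := by
    rw [hp, eval_slice, Function.update_eq_self]
  have hp0 : p ≠ 0 := by
    intro h
    rw [h, Polynomial.eval_zero] at h0
    exact hx h0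
  have hM := p.mahlerMeasure_pos_of_ne_zero hp0
  have hd : p.natDegree ≤ m := (natDegree_slice x i F).trans hm
  have h1 : ∫ w in Set.Icc (0:ℝ) 1, Real.log ‖tv F (Function.update x i w)‖ =
      Real.log p.mahlerMeasure := by
    rw [log_mahler]
    refine integral_congr_ae (Filter.Eventually.of_forall fun w => ?_)
    simp only [hp, eval_slice]
  have h2 : max ‖tv F x‖ ‖tv F (Function.update x i v)‖ ≤ 2 ^ m * p.mahlerMeasure := by
    refine max_le ?_ ?_
    · rw [h0]; exact norm_eval_le p m hd _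
    · rw [← eval_slice]; exact norm_eval_le p m hd _
  rw [h1, ← Real.log_pow, ← Real.log_mul (by positivity) hM.ne']
  refine Real.log_le_log ?_ h2
  exact lt_of_lt_of_le (norm_pos_iff.2 hx) (le_max_left _ _)

theorem tv_gsub (i : Fin k) (F : MvPolynomial (Fin k) ℤ) (t : Fin (k + 1) → ℝ) :
    tv (gsub i F) t =
      tv F (Function.update (fun j : Fin k => t j.succ) i (t i.succ + t 0)) := by
  have h : (J.tvh t).comp (gsub i : MvPolynomial (Fin k) ℤ →+* MvPolynomial (Fin (k + 1)) ℤ) =
      J.tvh (Function.update (fun j : Fin k => t j.succ) i (t i.succ + t 0)) := by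
    apply MvPolynomial.ringHom_ext
    · intro a
      simp [gsub, J.tvh]
    · intro l
      by_cases hl : l = i
      · subst hl
        simp only [gsub, J.tvh, J.zz, RingHom.comp_apply, RingHom.coe_coe, MvPolynomial.aeval_X,
          if_true, map_mul, MvPolynomial.map_X, MvPolynomial.eval_X, Function.update_self]
        rw [← Complex.exp_add]
        congr 1
        push_cast
        ring
      · simp [gsub, J.tvh, J.zz, hl]
  exact DFunLike.congr_fun h F

/-! ### Fubini on the cube -/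

theorem cube_pre (i : Fin (k + 1)) : Set.Icc (0 : Fin (k + 1) → ℝ) 1 =
    (MeasurableEquiv.piFinSuccAbove (fun _ : Fin (k + 1) => ℝ) i) ⁻¹'
      (Set.Icc (0 : ℝ) 1 ×ˢ Set.Icc (0 : Fin k → ℝ) 1) := by
  ext t
  simp only [Set.mem_Icc, Set.mem_preimage, Set.mem_prod, Pi.le_def,
    MeasurableEquiv.piFinSuccAbove_apply, Fin.insertNthEquiv_symm_apply, Pi.zero_apply,
    Pi.one_apply, Fin.forall_iff_succAbove i, Fin.removeNth]
  tauto

theorem mp (i : Fin (k + 1)) :
    MeasurePreserving (MeasurableEquiv.piFinSuccAbove (fun _ : Fin (k + 1) => ℝ) i)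
      (volume.restrict (Set.Icc (0 : Fin (k + 1) → ℝ) 1))
      ((volume.restrict (Set.Icc (0 : ℝ) 1)).prod
        (volume.restrict (Set.Icc (0 : Fin k → ℝ) 1))) := by
  have h := (volume_preserving_piFinSuccAbove (fun _ : Fin (k + 1) => ℝ) i).restrict_preimage_emb
    (MeasurableEquiv.measurableEmbedding _) (Set.Icc (0 : ℝ) 1 ×ˢ Set.Icc (0 : Fin k → ℝ) 1)
  rw [← cube_pre, Measure.volume_eq_prod, ← Measure.prod_restrict] at h
  exact h

theorem int_one : (∫ _ in Set.Icc (0 : ℝ) 1, (1 : ℝ)) = 1 := by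
  rw [setIntegral_const, measureReal_def, Real.volume_Icc]
  simp

theorem integrable_tail (i : Fin (k + 1)) (G : (Fin k → ℝ) → ℝ)
    (hG : IntegrableOn G (Set.Icc 0 1)) :
    IntegrableOn (fun t : Fin (k + 1) → ℝ => G (i.removeNth t)) (Set.Icc 0 1) := by
  have h1 : Integrable (fun z : ℝ × (Fin k → ℝ) => G z.2)
      ((volume.restrict (Set.Icc (0 : ℝ) 1)).prod
        (volume.restrict (Set.Icc (0 : Fin k → ℝ) 1))) := Integrable.comp_snd hG _
  exact ((mp i).integrable_comp_emb (MeasurableEquiv.measurableEmbedding _)).2 h1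

theorem integral_tail (i : Fin (k + 1)) (G : (Fin k → ℝ) → ℝ) :
    ∫ t in Set.Icc (0 : Fin (k + 1) → ℝ) 1, G (i.removeNth t) =
      ∫ y in Set.Icc (0 : Fin k → ℝ) 1, G y := by
  have h1 := (mp i).integral_comp (MeasurableEquiv.measurableEmbedding _)
    (fun z : ℝ × (Fin k → ℝ) => G z.2)
  have h2 := integral_prod_mul (μ := (volume.restrict (Set.Icc (0 : ℝ) 1)))
    (ν := volume.restrict (Set.Icc (0 : Fin k → ℝ) 1)) (fun _ => (1 : ℝ)) G
  simp only [one_mul] at h2
  rw [int_one, one_mul] at h2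
  rw [← h2, ← h1]
  rfl

theorem cube_slice (i : Fin (k + 1)) (g : (Fin (k + 1) → ℝ) → ℝ)
    (hg : IntegrableOn g (Set.Icc 0 1)) :
    IntegrableOn (fun x => ∫ w in Set.Icc (0 : ℝ) 1, g (Function.update x i w)) (Set.Icc 0 1) ∧
      ∫ x in Set.Icc (0 : Fin (k + 1) → ℝ) 1,
        (∫ w in Set.Icc (0 : ℝ) 1, g (Function.update x i w)) =
      ∫ x in Set.Icc (0 : Fin (k + 1) → ℝ) 1, g x := by
  set e := MeasurableEquiv.piFinSuccAbove (fun _ : Fin (k + 1) => ℝ) i with he
  set g' : ℝ × (Fin k → ℝ) → ℝ := fun z => g (e.symm z) with hg'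
  set K : (Fin k → ℝ) → ℝ := fun y => ∫ w in Set.Icc (0 : ℝ) 1, g' (w, y) with hK
  have e1 : ∀ x : Fin (k + 1) → ℝ, g' (e x) = g x := by
    intro x; simp only [hg', MeasurableEquiv.symm_apply_apply]
  have hgi : Integrable g' ((volume.restrict (Set.Icc (0 : ℝ) 1)).prod
        (volume.restrict (Set.Icc (0 : Fin k → ℝ) 1))) := by
    rw [← (mp i).integrable_comp_emb (MeasurableEquiv.measurableEmbedding _)]
    have : g' ∘ (MeasurableEquiv.piFinSuccAbove (fun _ : Fin (k + 1) => ℝ) i) = g := by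
      funext x; exact e1 x
    rw [this]
    exact hg
  have e2 : (fun x => ∫ w in Set.Icc (0 : ℝ) 1, g (Function.update x i w)) =
      fun x : Fin (k + 1) → ℝ => K (i.removeNth x) := by
    funext x
    simp only [hK, hg']
    refine integral_congr_ae (Filter.Eventually.of_forall fun w => ?_)
    show g (Function.update x i w) = g (e.symm (w, i.removeNth x))
    congr 1
    have : e.symm (w, i.removeNth x) = i.insertNth w (i.removeNth x) := rfl
    rw [this, Fin.insertNth_removeNth]
  have hKi : IntegrableOn K (Set.Icc 0 1) := hgi.integral_prod_right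
  rw [e2]
  refine ⟨integrable_tail i K hKi, ?_⟩
  rw [integral_tail]
  have h3 := (mp i).integral_comp (MeasurableEquiv.measurableEmbedding _) g'
  have h4 := integral_prod_symm g' hgi
  rw [← h4, ← h3]
  exact integral_congr_ae (Filter.Eventually.of_forall fun x => e1 x)

end K8

/-- K8: bounded degree in one variable -/
theorem width_pair {k : ℕ} (F : MvPolynomial (Fin k) ℤ) (hF : F ≠ 0) (i : Fin k) (m : ℕ)
    (hm : F.degreeOf i ≤ m) (hX : ¬ MvPolynomial.X i ∣ F)
    (hprim : ∀ Q, Q ∣ F → Q.degreeOf i = 0 → IsUnit Q) :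
    ∃ F' G' : MvPolynomial (Fin (k + 1)) ℤ, F' ≠ 0 ∧ G' ≠ 0 ∧ IsRelPrime F' G' ∧
      mM F' = mM F ∧ mx F' G' ≤ Real.log (mM F) + m * Real.log 2 := by
  refine ⟨MvPolynomial.rename Fin.succ F, K8.gsub i F, J.rename_ne_zero hF,
    K8.gsub_ne_zero hX, K8.relPrime_gsub hF hX hprim, J.mM_rename F, ?_⟩
  obtain ⟨k', rfl⟩ : ∃ k', k = k' + 1 := ⟨k - 1, by have := i.2; omega⟩
  have hlog : Real.log (mM F) = ∫ t in Set.Icc (0 : Fin (k' + 1) → ℝ) 1, Real.log ‖tv F t‖ := by
    unfold mM; rw [Real.log_exp]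
  obtain ⟨h1, h2⟩ := K8.cube_slice i (fun x => Real.log ‖tv F x‖) (F_integrable hF)
  unfold mx
  by_cases hint : IntegrableOn (fun t : Fin (k' + 1 + 1) → ℝ =>
      Real.log (max ‖tv (MvPolynomial.rename Fin.succ F) t‖ ‖tv (K8.gsub i F) t‖))
      (Set.Icc 0 1)
  swap
  · rw [integral_undef hint]
    have := Real.log_nonneg (one_le_mM F hF)
    have := Real.log_nonneg (show (1:ℝ) ≤ 2 by norm_num)
    positivity
  have h3 : IntegrableOn (fun x : Fin (k' + 1) → ℝ => m * Real.log 2 +
      ∫ w in Set.Icc (0 : ℝ) 1, Real.log ‖tv F (Function.update x i w)‖) (Set.Icc 0 1) := by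
    refine Integrable.add ?_ h1
    exact integrable_const _
  have h4 := K8.integrable_tail 0 _ h3
  calc ∫ t in Set.Icc (0 : Fin (k' + 1 + 1) → ℝ) 1,
        Real.log (max ‖tv (MvPolynomial.rename Fin.succ F) t‖ ‖tv (K8.gsub i F) t‖)
      ≤ ∫ t in Set.Icc (0 : Fin (k' + 1 + 1) → ℝ) 1,
        ((fun x : Fin (k' + 1) → ℝ => m * Real.log 2 +
          ∫ w in Set.Icc (0 : ℝ) 1, Real.log ‖tv F (Function.update x i w)‖)
          (Fin.removeNth 0 t)) := by
        refine integral_mono_ae hint h4 ?_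
        filter_upwards [F_zero_null (J.rename_ne_zero hF)] with t ht
        rw [J.tv_rename] at ht
        rw [J.tv_rename, K8.tv_gsub]
        exact K8.log_bound hm _ _ ht
    _ = m * Real.log 2 + Real.log (mM F) := by
        refine (K8.integral_tail 0 (fun x : Fin (k' + 1) → ℝ => m * Real.log 2 +
          ∫ w in Set.Icc (0 : ℝ) 1, Real.log ‖tv F (Function.update x i w)‖)).trans ?_
        rw [integral_add (integrable_const _) h1, h2, hlog, setIntegral_const, J.vol_cube]
        simp
    _ = _ := add_comm _ _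

end

end Pool.Agent.H261R2.CM
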