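import Pool.Agent.H2.L.R_seed8.H261R2.CM.Defs

/-! # Task A: linear algebra (helper58) -/

set_option autoImplicit false

namespace Pool.Agent.H261R2.CM

open Matrix
open scoped ComplexOrder

noncomputable section

private theorem amgm {κ : Type*} [Fintype κ] [Nonempty κ] (z : κ → ℝ) (hz : ∀ j, 0 ≤ z j) :
    ∏ j, z j ≤ ((∑ j, z j) / Fintype.card κ) ^ Fintype.card κ := by
  have hn : (0 : ℝ) < Fintype.card κ := by exact_mod_cast Fintype.card_pos
  have h := Real.geom_mean_le_arith_mean (Finset.univ : Finset κ) (fun _ => (1 : ℝ)) z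
    (fun _ _ => zero_le_one) (by simpa using hn) (fun j _ => hz j)
  simp only [Real.rpow_one, one_mul, Finset.sum_const, Finset.card_univ, nsmul_eq_mul, mul_one] at h
  have hprod : 0 ≤ ∏ j, z j := Finset.prod_nonneg fun j _ => hz j
  have h2 := pow_le_pow_left₀ (Real.rpow_nonneg hprod _) h (Fintype.card κ)
  rwa [← Real.rpow_natCast (_ ^ _), ← Real.rpow_mul hprod, inv_mul_cancel₀ hn.ne',
    Real.rpow_one] at h2

/-- A1: AM-GM for Gram determinants with scaled columns. -/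
theorem det_gram_scaled {ι κ : Type*} [Fintype ι] [Fintype κ] [DecidableEq κ] [Nonempty κ]
    (W : Matrix ι κ ℂ) (lam : κ → ℝ) (hlam : ∀ j, 0 < lam j) :
    (∏ j, lam j ^ 2) * (Wᴴ * W).det.re ≤
      ((∑ j, ∑ i, lam j ^ 2 * ‖W i j‖ ^ 2) / Fintype.card κ) ^ (Fintype.card κ) := by
  set D : Matrix κ κ ℂ := diagonal fun j => (lam j : ℂ) with hD
  set V : Matrix ι κ ℂ := W * D with hV
  have hDh : Dᴴ = D := by
    rw [hD, diagonal_conjTranspose]
    congr 1
    ext j
    simp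
  have hdet : (Vᴴ * V).det = ((∏ j, lam j ^ 2 : ℝ) : ℂ) * (Wᴴ * W).det := by
    rw [hV, conjTranspose_mul, hDh, Matrix.mul_assoc, ← Matrix.mul_assoc Wᴴ, det_mul, det_mul,
      hD, det_diagonal]
    push_cast
    rw [Finset.prod_pow]
    ring
  have hps : (Vᴴ * V).PosSemidef := posSemidef_conjTranspose_mul_self V
  have h1 : (Vᴴ * V).det = ((∏ j, hps.1.eigenvalues j : ℝ) : ℂ) := by
    rw [hps.1.det_eq_prod_eigenvalues]; push_cast; rfl
  have h2 : (Vᴴ * V).trace = ((∑ j, hps.1.eigenvalues j : ℝ) : ℂ) := by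
    rw [hps.1.trace_eq_sum_eigenvalues]; push_cast; rfl
  have h3 : (Vᴴ * V).trace = ((∑ j, ∑ i, lam j ^ 2 * ‖W i j‖ ^ 2 : ℝ) : ℂ) := by
    rw [Matrix.trace]
    push_cast
    refine Finset.sum_congr rfl fun j _ => ?_
    rw [diag_apply, mul_apply]
    refine Finset.sum_congr rfl fun i _ => ?_
    rw [conjTranspose_apply, hV, hD, mul_diagonal, star_mul', RCLike.star_def,
      Complex.conj_ofReal]
    have : (starRingEnd ℂ) (W i j) * W i j = ((‖W i j‖ : ℂ)) ^ 2 := Complex.conj_mul' _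
    calc _ = (lam j : ℂ) ^ 2 * ((starRingEnd ℂ) (W i j) * W i j) := by ring
      _ = _ := by rw [this]
  have h4 : ∑ j, hps.1.eigenvalues j = ∑ j, ∑ i, lam j ^ 2 * ‖W i j‖ ^ 2 := by
    have := h2.symm.trans h3
    exact_mod_cast this
  have h5 : (∏ j, lam j ^ 2) * (Wᴴ * W).det.re = ∏ j, hps.1.eigenvalues j := by
    have := congrArg Complex.re (hdet.symm.trans h1)
    rwa [Complex.re_ofReal_mul, Complex.ofReal_re] at this
  rw [h5, ← h4]
  exact amgm _ fun j => hps.eigenvalues_nonneg j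

private theorem one_le_det_of {κ : Type*} [Fintype κ] [DecidableEq κ] (B : Matrix κ κ ℂ)
    (h : (B - 1).PosSemidef) : 1 ≤ B.det.re := by
  have hB : B.IsHermitian := by
    have : B = (B - 1) + 1 := by simp
    rw [this]
    exact h.1.add isHermitian_one
  have hev : ∀ i, 1 ≤ hB.eigenvalues i := by
    intro i
    have h1 := h.re_dotProduct_nonneg (hB.eigenvectorBasis i).ofLp
    rw [sub_mulVec, hB.mulVec_eigenvectorBasis, one_mulVec, dotProduct_sub, dotProduct_smul] at h1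
    have h2 : star (hB.eigenvectorBasis i).ofLp ⬝ᵥ (hB.eigenvectorBasis i).ofLp = 1 := by
      have h3 := hB.eigenvectorBasis.orthonormal.1 i
      have h4 : inner ℂ (hB.eigenvectorBasis i) (hB.eigenvectorBasis i) = (1 : ℂ) := by
        rw [inner_self_eq_norm_sq_to_K, h3]; simp
      rw [EuclideanSpace.inner_eq_star_dotProduct] at h4
      rw [dotProduct_comm]
      exact h4
    rw [h2] at h1
    simp at h1
    exact h1
  rw [hB.det_eq_prod_eigenvalues]
  have : (∏ i, ((hB.eigenvalues i : ℝ) : ℂ)) = ((∏ i, hB.eigenvalues i : ℝ) : ℂ) := by push_cast; rfl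
  have h6 : (∏ i, ((hB.eigenvalues i : ℝ) : ℂ)).re = ∏ i, hB.eigenvalues i := by
    rw [this, Complex.ofReal_re]
  refine le_trans ?_ h6.ge
  calc (1 : ℝ) = ∏ _i : κ, (1 : ℝ) := by simp
    _ ≤ ∏ i, hB.eigenvalues i := Finset.prod_le_prod (fun _ _ => zero_le_one) fun i _ => hev i

/-- A2: determinants are monotone: `A ≥ Q Qᴴ` implies `det A ≥ |det Q|²`. -/
theorem det_ge_of_posSemidef_sub {κ : Type*} [Fintype κ] [DecidableEq κ] (A Q : Matrix κ κ ℂ)
    (h : (A - Q * Qᴴ).PosSemidef) : ‖Q.det‖ ^ 2 ≤ A.det.re := by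
  by_cases hQ : Q.det = 0
  · rw [hQ, norm_zero, zero_pow two_ne_zero]
    have hA : A.PosSemidef := by
      have : A = (A - Q * Qᴴ) + Q * Qᴴ := by simp
      rw [this]
      exact h.add (posSemidef_self_mul_conjTranspose Q)
    exact (Complex.nonneg_iff.1 hA.det_nonneg).1
  · have hu : IsUnit Q.det := isUnit_iff_ne_zero.2 hQ
    have h1 : Q⁻¹ * Q = 1 := nonsing_inv_mul Q hu
    have h2 : Qᴴ * (Q⁻¹)ᴴ = 1 := by rw [← conjTranspose_mul, h1, conjTranspose_one]
    have h3 : Q⁻¹ * (A - Q * Qᴴ) * (Q⁻¹)ᴴ = Q⁻¹ * A * (Q⁻¹)ᴴ - 1 := by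
      rw [Matrix.mul_sub, Matrix.sub_mul, ← Matrix.mul_assoc Q⁻¹ Q, h1, Matrix.one_mul, h2]
    have h4 : (Q⁻¹ * A * (Q⁻¹)ᴴ - 1).PosSemidef := by
      rw [← h3]; exact h.mul_mul_conjTranspose_same _
    have h5 := one_le_det_of _ h4
    have h6 : A.det = ((‖Q.det‖ ^ 2 : ℝ) : ℂ) * (Q⁻¹ * A * (Q⁻¹)ᴴ).det := by
      rw [det_mul, det_mul, det_conjTranspose, det_nonsing_inv, Ring.inverse_eq_inv']
      have h7 : ((‖Q.det‖ ^ 2 : ℝ) : ℂ) = Q.det * star Q.det := by
        push_cast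
        rw [RCLike.star_def]
        exact (Complex.mul_conj' _).symm
      rw [h7, star_inv₀]
      have h8 : star Q.det ≠ 0 := star_ne_zero.2 hQ
      field_simp
    rw [h6, Complex.re_ofReal_mul]
    nlinarith [sq_nonneg ‖Q.det‖]

/-- A3: the Gram determinant of linearly independent integer columns is a positive integer. -/
theorem one_le_int_gram {ι κ : Type*} [Fintype ι] [Fintype κ] [DecidableEq κ] (E : Matrix ι κ ℤ)
    (h : LinearIndependent ℂ (fun (j : κ) (i : ι) => ((E i j : ℤ) : ℂ))) :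
    1 ≤ (Eᵀ * E).det := by
  set F : Matrix ι κ ℂ := E.map (Int.castRingHom ℂ) with hF
  have hinj : Function.Injective F.mulVec := by
    rw [mulVec_injective_iff]
    exact h
  have hpd : (Fᴴ * F).PosDef := PosDef.conjTranspose_mul_self F hinj
  have h1 : Fᴴ * F = (Eᵀ * E).map (Int.castRingHom ℂ) := by
    rw [Matrix.map_mul]
    congr 1
    ext i j
    simp [hF]
  have h2 := hpd.det_pos
  rw [h1, ← RingHom.mapMatrix_apply, ← RingHom.map_det] at h2
  have h3 : (0 : ℤ) < (Eᵀ * E).det := by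
    have h4 := (Complex.pos_iff.1 h2).1
    simp only [eq_intCast, Complex.intCast_re] at h4
    exact_mod_cast h4
  omega

end

end Pool.Agent.H261R2.CM
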