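import Pool.Agent.H2.L.R_seed8.H261R2.CM.Defs
import Pool.Agent.H2.L.R_seed8.H261R2.CM.A

set_option autoImplicit false

namespace Pool.Agent.H261R2.CM

open Polynomial Filter MeasureTheory Matrix

noncomputable section

theorem conv_zc (p A : ℂ[X]) (m N : ℤ) :
    conv p (fun γ => zc A (γ - m)) N = zc (p * A) (N - m) := by
  classical
  have key : ∀ M : ℤ, (p.sum fun j c => c * zc A (M - (j : ℤ))) = zc (p * A) M := by
    intro M
    by_cases hM : 0 ≤ M
    · obtain ⟨n, rfl⟩ := Int.eq_ofNat_of_zero_le hM
      have h1 : zc (p * A) (n : ℤ) = (p * A).coeff n := by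
        simp [zc]
      rw [h1]
      conv_rhs => rw [← Polynomial.sum_C_mul_X_pow_eq p]
      rw [Polynomial.sum_def, Polynomial.sum_def, Finset.sum_mul, Polynomial.finsetSum_coeff]
      refine Finset.sum_congr rfl fun a _ => ?_
      rw [mul_assoc, Polynomial.coeff_C_mul, Polynomial.coeff_X_pow_mul']
      congr 1
      unfold zc
      by_cases ha : a ≤ n
      · rw [if_pos (by omega), if_pos ha]
        congr 1
        omega
      · rw [if_neg (by omega), if_neg ha]
    · have h1 : zc (p * A) M = 0 := by simp [zc, hM]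
      rw [h1, Polynomial.sum_def]
      refine Finset.sum_eq_zero fun a _ => ?_
      have : zc A (M - (a : ℤ)) = 0 := by
        unfold zc; rw [if_neg (by omega)]
      rw [this, mul_zero]
  have := key (N - m)
  rw [← this]
  unfold conv
  rw [Polynomial.sum_def, Polynomial.sum_def]
  refine Finset.sum_congr rfl fun a _ => ?_
  have : N - (a : ℤ) - m = N - m - (a : ℤ) := by ring
  simp only [this]

/-- `conv p` as a linear map. -/
def convL (p : ℂ[X]) : (ℤ → ℂ) →ₗ[ℂ] (ℤ → ℂ) where
  toFun := conv p
  map_add' u v := by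
    funext N
    simp only [conv, Pi.add_apply, Polynomial.sum_def, mul_add, Finset.sum_add_distrib]
  map_smul' c v := by
    funext N
    simp only [conv, Pi.smul_apply, Polynomial.sum_def, smul_eq_mul, RingHom.id_apply,
      Finset.mul_sum]
    refine Finset.sum_congr rfl fun a _ => by ring

theorem pivot : ∀ (k : ℕ) (V : Submodule ℂ (ℤ → ℂ)), FiniteDimensional ℂ V →
    Module.finrank ℂ V = k → ∀ m : ℤ, (∀ v ∈ V, ∀ γ < m, v γ = 0) →
    ∃ N : Fin k → ℤ, StrictMono N ∧ (∀ j, m ≤ N j) ∧
      ∀ v ∈ V, ∀ γ : ℤ, (∀ j, N j ≤ γ → v (N j) = 0) → v γ = 0 := by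
  intro k
  induction k with
  | zero =>
    intro V hV hr m _
    have hbot : V = ⊥ := Submodule.finrank_eq_zero.mp hr
    refine ⟨Fin.elim0, fun i => Fin.elim0 i, fun i => Fin.elim0 i, ?_⟩
    intro v hv γ _
    rw [hbot, Submodule.mem_bot] at hv
    simp [hv]
  | succ k ih =>
    intro V hV hr m hm
    have hne : ∃ γ : ℤ, ∃ v ∈ V, v γ ≠ 0 := by
      by_contra hcon
      push Not at hcon
      have hbot : V = ⊥ := by
        rw [eq_bot_iff]
        intro v hv
        rw [Submodule.mem_bot]
        funext γ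
        exact hcon γ v hv
      rw [hbot] at hr
      simp at hr
    obtain ⟨N0, ⟨v0, hv0, hv0ne⟩, hN0⟩ := Int.exists_least_of_bdd
      (P := fun γ => ∃ v ∈ V, v γ ≠ 0) ⟨m, fun z hz => by
        obtain ⟨v, hv, hvz⟩ := hz
        by_contra hlt
        exact hvz (hm v hv z (not_le.mp hlt))⟩ hne
    have hlow : ∀ v ∈ V, ∀ γ < N0, v γ = 0 := by
      intro v hv γ hγ
      by_contra hne'
      exact absurd (hN0 γ ⟨v, hv, hne'⟩) (not_le.mpr hγ)
    -- evaluation at N0
    let ev : V →ₗ[ℂ] ℂ := (LinearMap.proj N0).comp V.subtype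
    have hev : ∀ v : V, ev v = (v : ℤ → ℂ) N0 := fun v => rfl
    have hsurj : LinearMap.range ev = ⊤ := by
      rw [LinearMap.range_eq_top]
      intro c
      refine ⟨(c / v0 N0) • ⟨v0, hv0⟩, ?_⟩
      rw [map_smul, hev]
      simp only [smul_eq_mul]
      exact div_mul_cancel₀ c hv0ne
    have hker : Module.finrank ℂ (LinearMap.ker ev) = k := by
      have h := LinearMap.finrank_range_add_finrank_ker ev
      rw [hsurj, hr] at h
      simp at h
      omega
    let V' : Submodule ℂ (ℤ → ℂ) := (LinearMap.ker ev).map V.subtype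
    have hV'fr : Module.finrank ℂ V' = k := by
      rw [← hker]
      exact Submodule.finrank_map_subtype_eq V (LinearMap.ker ev)
    have hV'mem : ∀ v, v ∈ V' ↔ v ∈ V ∧ v N0 = 0 := by
      intro v
      constructor
      · rintro ⟨w, hw, rfl⟩
        exact ⟨w.2, hw⟩
      · rintro ⟨hv, h0⟩
        exact ⟨⟨v, hv⟩, h0, rfl⟩
    have hV'fd : FiniteDimensional ℂ V' := inferInstance
    obtain ⟨N', hmono, hge, hpiv⟩ := ih V' hV'fd hV'fr (N0 + 1) (by
      intro v hv γ hγ
      rw [hV'mem] at hv
      rcases lt_or_eq_of_le (Int.lt_add_one_iff.mp hγ) with h | h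
      · exact hlow v hv.1 γ h
      · rw [h]; exact hv.2)
    have hmN0 : m ≤ N0 := by
      by_contra hlt
      exact hv0ne (hm v0 hv0 N0 (not_le.mp hlt))
    refine ⟨Fin.cons N0 N', ?_, ?_, ?_⟩
    · intro i j hij
      induction i using Fin.cases with
      | zero =>
        induction j using Fin.cases with
        | zero => exact absurd hij (lt_irrefl _)
        | succ j =>
          simp only [Fin.cons_zero, Fin.cons_succ]
          have := hge j
          omega
      | succ i =>
        induction j using Fin.cases with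
        | zero => exact absurd hij (Fin.not_lt_zero _)
        | succ j =>
          simp only [Fin.cons_succ]
          exact hmono (Fin.succ_lt_succ_iff.mp hij)
    · intro j
      induction j using Fin.cases with
      | zero => simpa using hmN0
      | succ j =>
        simp only [Fin.cons_succ]
        have := hge j
        omega
    · intro v hv γ hγ
      rcases lt_or_ge γ N0 with h | h
      · exact hlow v hv γ h
      · have h0 : v N0 = 0 := by
          have := hγ 0
          simp only [Fin.cons_zero] at this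
          exact this h
        refine hpiv v ((hV'mem v).mpr ⟨hv, h0⟩) γ fun j hj => ?_
        have := hγ j.succ
        simp only [Fin.cons_succ] at this
        exact this hj

theorem pivot_T {r : ℕ} (V : Submodule ℂ (ℤ → ℂ)) [FiniteDimensional ℂ V]
    (hr : Module.finrank ℂ V = r) (N : Fin r → ℤ) (hN : StrictMono N)
    (hpiv : ∀ v ∈ V, ∀ γ : ℤ, (∀ j, N j ≤ γ → v (N j) = 0) → v γ = 0) (p : ℂ[X]) :
    ∃ (T : Matrix (Fin r) (Fin r) ℂ) (w : Fin r → (ℤ → ℂ)), (∀ l, w l ∈ V) ∧
      (∀ l j, w l (N j) = if l = j then 1 else 0) ∧ (∀ i j, j < i → T i j = 0) ∧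
      (∀ i, T i i = p.coeff 0) ∧ ∀ v ∈ V, ∀ j, conv p v (N j) = ∑ i, v (N i) * T i j := by
  classical
  let EV : V →ₗ[ℂ] (Fin r → ℂ) :=
    { toFun := fun v j => (v : ℤ → ℂ) (N j)
      map_add' := fun u v => rfl
      map_smul' := fun c v => rfl }
  have hinj : Function.Injective EV := by
    rw [← LinearMap.ker_eq_bot, LinearMap.ker_eq_bot']
    intro v hv
    apply Subtype.ext
    funext γ
    exact hpiv v v.2 γ fun j _ => congrFun hv j
  have hsurj : Function.Surjective EV :=
    (LinearMap.injective_iff_surjective_of_finrank_eq_finrank (by simp [hr])).mp hinj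
  choose w' hw' using fun l : Fin r => hsurj (Pi.single l 1)
  have hw1 : ∀ l j, (w' l : ℤ → ℂ) (N j) = if l = j then 1 else 0 := by
    intro l j
    have := congrFun (hw' l) j
    have h2 : EV (w' l) j = (w' l : ℤ → ℂ) (N j) := rfl
    rw [← h2, this, Pi.single_apply]
    by_cases h : j = l
    · simp [h]
    · rw [if_neg h, if_neg (fun h' => h h'.symm)]
  refine ⟨Matrix.of fun l j => conv p (w' l) (N j), fun l => w' l, fun l => (w' l).2, hw1, ?_, ?_, ?_⟩
  · intro i j hij
    simp only [Matrix.of_apply, conv, Polynomial.sum_def]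
    refine Finset.sum_eq_zero fun a _ => ?_
    have : (w' i : ℤ → ℂ) (N j - (a : ℤ)) = 0 := by
      refine hpiv _ (w' i).2 _ fun l hl => ?_
      rw [hw1, if_neg]
      rintro rfl
      have := hN hij
      omega
    rw [this, mul_zero]
  · intro i
    simp only [Matrix.of_apply, conv, Polynomial.sum_def]
    by_cases h0 : p.coeff 0 = 0
    · rw [h0]
      refine Finset.sum_eq_zero fun a ha => ?_
      have ha0 : a ≠ 0 := by
        rintro rfl
        exact (Polynomial.mem_support_iff.mp ha) h0
      have : (w' i : ℤ → ℂ) (N i - (a : ℤ)) = 0 := by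
        refine hpiv _ (w' i).2 _ fun l hl => ?_
        rw [hw1, if_neg]
        rintro rfl
        omega
      rw [this, mul_zero]
    · rw [Finset.sum_eq_single 0]
      · simp [hw1]
      · intro a _ ha0
        have : (w' i : ℤ → ℂ) (N i - (a : ℤ)) = 0 := by
          refine hpiv _ (w' i).2 _ fun l hl => ?_
          rw [hw1, if_neg]
          rintro rfl
          omega
        rw [this, mul_zero]
      · intro h
        exact absurd (Polynomial.mem_support_iff.mpr h0) h
  · intro v hv j
    have hvsum : v = ∑ i, v (N i) • (w' i : ℤ → ℂ) := by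
      have h1 : (⟨v, hv⟩ : V) = ∑ i, v (N i) • w' i := by
        apply hinj
        funext l
        rw [map_sum]
        simp only [map_smul, hw', Finset.sum_apply, Pi.smul_apply, smul_eq_mul, Pi.single_apply]
        simp [EV]
      have h2 := congrArg (Subtype.val) h1
      simpa using h2
    have h3 : conv p v (N j) = convL p v (N j) := rfl
    rw [h3]
    conv_lhs => rw [hvsum]
    rw [map_sum, Finset.sum_apply]
    refine Finset.sum_congr rfl fun i _ => ?_
    rw [map_smul, Pi.smul_apply, smul_eq_mul]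
    rfl

theorem level_gram {ι : Type*} [Fintype ι] (E : ι → ℤ → ℤ) (m : ℤ)
    (hm : ∀ i, ∀ γ < m, E i γ = 0) (r : ℕ)
    (hr : Module.finrank ℂ (Submodule.span ℂ (Set.range fun i => fun γ => ((E i γ : ℤ) : ℂ))) = r)
    (p : ℂ[X]) :
    ∃ N : Fin r → ℤ, StrictMono N ∧ (∀ j, m ≤ N j) ∧
      (∀ v ∈ Submodule.span ℂ (Set.range fun i => fun γ => ((E i γ : ℤ) : ℂ)),
        (∀ j, v (N j) = 0) → v = 0) ∧
      (∃ T : Matrix (Fin r) (Fin r) ℂ, T.det = p.coeff 0 ^ r ∧
        ∀ v ∈ Submodule.span ℂ (Set.range fun i => fun γ => ((E i γ : ℤ) : ℂ)),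
          ∀ j, conv p v (N j) = ∑ i, v (N i) * T i j) ∧
      ∀ (i : ℕ) (hi : i ≤ r),
        ‖p.coeff 0‖ ^ (2 * i) ≤
          (((Matrix.of fun (b : ι) (j : Fin i) =>
              conv p (fun γ => ((E b γ : ℤ) : ℂ)) (N (Fin.castLE hi j)))ᴴ *
            (Matrix.of fun (b : ι) (j : Fin i) =>
              conv p (fun γ => ((E b γ : ℤ) : ℂ)) (N (Fin.castLE hi j)))).det).re := by
  classical
  set V := Submodule.span ℂ (Set.range fun i => fun γ => ((E i γ : ℤ) : ℂ)) with hVdef
  have : FiniteDimensional ℂ V := FiniteDimensional.span_of_finite ℂ (Set.finite_range _)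
  have hVm : ∀ v ∈ V, ∀ γ < m, v γ = 0 := by
    intro v hv γ hγ
    rw [hVdef] at hv
    induction hv using Submodule.span_induction with
    | mem x hx =>
      obtain ⟨i, rfl⟩ := hx
      simp [hm i γ hγ]
    | zero => rfl
    | add x y _ _ hx hy => simp [hx, hy]
    | smul c x _ hx => simp [hx]
  obtain ⟨N, hmono, hge, hpiv⟩ := pivot r V inferInstance hr m hVm
  obtain ⟨T, w, hwV, hw1, hTlow, hTdiag, hT⟩ := pivot_T V hr N hmono hpiv p
  have hTup : T.BlockTriangular id := fun i j hij => hTlow i j hij
  refine ⟨N, hmono, hge, ?_, ⟨T, ?_, hT⟩, ?_⟩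
  · intro v hv h
    funext γ
    exact hpiv v hv γ fun j _ => h j
  · rw [Matrix.det_of_isUpperTriangular hTup]
    simp [hTdiag]
  · intro i hi
    have hEV : ∀ b : ι, (fun γ => ((E b γ : ℤ) : ℂ)) ∈ V := fun b =>
      Submodule.subset_span ⟨b, rfl⟩
    let Ei : Matrix ι (Fin i) ℤ := Matrix.of fun b j => E b (N (Fin.castLE hi j))
    let Ti : Matrix (Fin i) (Fin i) ℂ := Matrix.of fun l j => T (Fin.castLE hi l) (Fin.castLE hi j)
    have hW : (Matrix.of fun (b : ι) (j : Fin i) =>
        conv p (fun γ => ((E b γ : ℤ) : ℂ)) (N (Fin.castLE hi j))) =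
        (Ei.map (Int.cast : ℤ → ℂ)) * Ti := by
      ext b j
      simp only [Matrix.of_apply, Matrix.mul_apply, Matrix.map_apply, Ei, Ti]
      rw [hT _ (hEV b) (Fin.castLE hi j)]
      -- split the sum
      symm
      rw [← Finset.sum_subset (Finset.subset_univ (Finset.univ.image (Fin.castLE hi)))]
      · rw [Finset.sum_image]
        intro x _ y _ hxy
        exact Fin.castLE_injective hi hxy
      · intro x _ hx
        have hxi : i ≤ (x : ℕ) := by
          by_contra hlt
          push Not at hlt
          apply hx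
          simp only [Finset.mem_image, Finset.mem_univ, true_and]
          exact ⟨⟨x, hlt⟩, by ext; simp⟩
        rw [hTlow x (Fin.castLE hi j), mul_zero]
        rw [Fin.lt_def]
        simp only [Fin.val_castLE]
        exact lt_of_lt_of_le j.2 hxi
    rw [hW, Matrix.conjTranspose_mul]
    have hassoc : Tiᴴ * (Ei.map (Int.cast : ℤ → ℂ))ᴴ * (Ei.map (Int.cast : ℤ → ℂ) * Ti) =
        Tiᴴ * ((Ei.map (Int.cast : ℤ → ℂ))ᴴ * Ei.map (Int.cast : ℤ → ℂ)) * Ti := by
      simp only [Matrix.mul_assoc]
    rw [hassoc, Matrix.det_mul, Matrix.det_mul]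
    have hE1 : (Ei.map (Int.cast : ℤ → ℂ))ᴴ * Ei.map (Int.cast : ℤ → ℂ) =
        (Eiᵀ * Ei).map (Int.cast : ℤ → ℂ) := by
      ext a b
      simp [Matrix.mul_apply, Matrix.conjTranspose_apply, Matrix.map_apply, Matrix.transpose_apply]
    have hdetE : ((Ei.map (Int.cast : ℤ → ℂ))ᴴ * Ei.map (Int.cast : ℤ → ℂ)).det =
        (((Eiᵀ * Ei).det : ℤ) : ℂ) := by
      rw [hE1]
      exact (Int.cast_det (R := ℂ) (Eiᵀ * Ei)).symm
    have hTidet : Ti.det = p.coeff 0 ^ i := by
      have hup : Ti.BlockTriangular id := fun a b hab => by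
        have hab' : (b : ℕ) < (a : ℕ) := hab
        simp only [Ti, Matrix.of_apply]
        refine hTlow _ _ ?_
        rw [Fin.lt_def]
        exact hab'
      rw [Matrix.det_of_isUpperTriangular hup]
      simp [Ti, hTdiag]
    have hone : 1 ≤ (Eiᵀ * Ei).det := by
      apply one_le_int_gram
      rw [Fintype.linearIndependent_iff]
      intro g hg l
      -- functional vanishing on V
      have hfun : ∀ v ∈ V, ∑ j : Fin i, g j * v (N (Fin.castLE hi j)) = 0 := by
        intro v hv
        rw [hVdef] at hv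
        induction hv using Submodule.span_induction with
        | mem x hx =>
          obtain ⟨b, rfl⟩ := hx
          have := congrFun hg b
          simpa [Ei, Finset.sum_apply] using this
        | zero => simp
        | add x y _ _ hx hy => simp [mul_add, Finset.sum_add_distrib, hx, hy]
        | smul c x _ hx =>
          have : ∑ j : Fin i, g j * (c • x) (N (Fin.castLE hi j)) =
              c * ∑ j : Fin i, g j * x (N (Fin.castLE hi j)) := by
            rw [Finset.mul_sum]
            refine Finset.sum_congr rfl fun j _ => ?_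
            simp only [Pi.smul_apply, smul_eq_mul]; ring
          rw [this, hx, mul_zero]
      have h := hfun (w (Fin.castLE hi l)) (hwV _)
      simp only [hw1] at h
      rw [Finset.sum_eq_single l] at h
      · simpa using h
      · intro b _ hb
        rw [if_neg, mul_zero]
        intro h'
        exact hb (Fin.castLE_injective hi h').symm
      · intro h'; exact absurd (Finset.mem_univ l) h'
    rw [Matrix.det_conjTranspose, hTidet, hdetE]
    generalize (Eiᵀ * Ei).det = dd at hone
    have hre : ((star (p.coeff 0 ^ i) * ((dd : ℤ) : ℂ)) * p.coeff 0 ^ i).re =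
        ‖p.coeff 0‖ ^ (2 * i) * (dd : ℝ) := by
      have h1 : (star (p.coeff 0 ^ i) * ((dd : ℤ) : ℂ)) * p.coeff 0 ^ i =
          ((‖p.coeff 0‖ ^ (2 * i) * (dd : ℝ) : ℝ) : ℂ) := by
        have h2 : star (p.coeff 0 ^ i) * p.coeff 0 ^ i = ((‖p.coeff 0‖ ^ (2 * i) : ℝ) : ℂ) := by
          rw [show (star (p.coeff 0 ^ i) : ℂ) = (starRingEnd ℂ) (p.coeff 0 ^ i) from rfl,
            ← Complex.normSq_eq_conj_mul_self, Complex.normSq_eq_norm_sq, norm_pow]
          congr 1
          ring
        rw [mul_right_comm, h2]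
        push_cast
        ring
      rw [h1, Complex.ofReal_re]
    rw [hre]
    have hone' : (1 : ℝ) ≤ (dd : ℝ) := by exact_mod_cast hone
    nlinarith [pow_nonneg (norm_nonneg (p.coeff 0)) (2 * i)]

end

end Pool.Agent.H261R2.CM
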