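import Pool.Agent.H2.L.R_seed8.H261R2.CM.C2

set_option autoImplicit false

namespace Pool.Agent.H261R2.CM

open Polynomial Filter MeasureTheory Matrix Topology
open scoped Pointwise

noncomputable section

/-- Convex subgroups of the ultraproduct. -/
def Cvx (Δ : AddSubgroup Gam) : Prop := ∀ a ∈ Δ, ∀ b : Gam, |b| ≤ |a| → b ∈ Δ

theorem Cvx.mem_of_le {Δ : AddSubgroup Gam} (h : Cvx Δ) {x y z : Gam} (hx : x ∈ Δ) (hz : z ∈ Δ)
    (hxy : x ≤ y) (hyz : y ≤ z) : y ∈ Δ := by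
  have h1 : |y| ≤ max |x| |z| := abs_le_max_abs_abs hxy hyz
  rcases le_max_iff.mp h1 with h2 | h2
  · exact h x hx y h2
  · exact h z hz y h2

/-- The convex subgroup generated by a nonnegative element. -/
def hull (a : Gam) (_ha : 0 ≤ a) : AddSubgroup Gam where
  carrier := {x | ∃ n : ℕ, |x| ≤ n • a}
  zero_mem' := ⟨0, by simp⟩
  add_mem' := by
    rintro x y ⟨m, hm⟩ ⟨n, hn⟩
    refine ⟨m + n, ?_⟩
    rw [add_smul]
    exact le_trans (abs_add_le x y) (add_le_add hm hn)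
  neg_mem' := by
    rintro x ⟨n, hn⟩
    exact ⟨n, by rwa [abs_neg]⟩

theorem hull_cvx (a : Gam) (ha : 0 ≤ a) : Cvx (hull a ha) := by
  rintro x ⟨n, hn⟩ b hb
  exact ⟨n, le_trans hb hn⟩

theorem mem_hull_of_abs_le {a : Gam} (ha : 0 ≤ a) {x : Gam} (n : ℕ) (h : |x| ≤ n • a) :
    x ∈ hull a ha := ⟨n, h⟩

section

variable (A B : ℕ → ℤ[X]) (p : ℕ → ℂ[X])

/-- The mass of a finite set. -/
def gmass (T : Finset Gam) : ℝ := ∑ γ ∈ T, (‖GG A B p true γ‖ ^ 2 + ‖GG A B p false γ‖ ^ 2)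

theorem gmass_eq (T : Finset Gam) : gmass A B p T =
    ∑ γ ∈ T, ‖GG A B p true γ‖ ^ 2 + ∑ γ ∈ T, ‖GG A B p false γ‖ ^ 2 := by
  unfold gmass; rw [Finset.sum_add_distrib]

theorem gmass_nonneg (T : Finset Gam) : 0 ≤ gmass A B p T :=
  Finset.sum_nonneg fun _ _ => by positivity

theorem sum_le_mass (b : Bool) (T : Finset Gam) :
    ∑ γ ∈ T, ‖GG A B p b γ‖ ^ 2 ≤ gmass A B p T := by
  unfold gmass
  refine Finset.sum_le_sum fun γ _ => ?_
  cases b
  · nlinarith [sq_nonneg ‖GG A B p true γ‖]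
  · nlinarith [sq_nonneg ‖GG A B p false γ‖]

theorem mass_le_two (hpA : ∀ n, l2le (p n * toC (A n)))
    (hpB : ∀ n, l2le (p n * toC (B n))) (T : Finset Gam) : gmass A B p T ≤ 2 := by
  rw [gmass_eq]
  have h1 := GG_sum_le A B p hpA hpB true T
  have h2 := GG_sum_le A B p hpA hpB false T
  linarith

theorem mass_union [DecidableEq Gam] (S T : Finset Gam) (h : Disjoint S T) :
    gmass A B p (S ∪ T) = gmass A B p S + gmass A B p T := by
  unfold gmass; exact Finset.sum_union h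

theorem exists_tail (hpA : ∀ n, l2le (p n * toC (A n)))
    (hpB : ∀ n, l2le (p n * toC (B n))) (Δ : AddSubgroup Gam) (ε : ℝ) (hε : 0 < ε) :
    ∃ S : Finset Gam, (∀ x ∈ S, x ∈ Δ) ∧
      ∀ U : Finset Gam, (∀ x ∈ U, x ∈ Δ ∧ x ∉ S) → gmass A B p U ≤ ε := by
  classical
  let M : Set ℝ := {m | ∃ T : Finset Gam, (∀ x ∈ T, x ∈ Δ) ∧ m = gmass A B p T}
  have hbdd : BddAbove M := ⟨2, by
    rintro m ⟨T, _, rfl⟩
    exact mass_le_two A B p hpA hpB T⟩
  have hne : M.Nonempty := ⟨_, ∅, by simp, rfl⟩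
  obtain ⟨m, ⟨S, hS, rfl⟩, hm⟩ := exists_lt_of_lt_csSup hne
    (show sSup M - ε < sSup M by linarith)
  refine ⟨S, hS, fun U hU => ?_⟩
  have hdis : Disjoint S U := by
    rw [Finset.disjoint_left]
    intro x hx hxU
    exact (hU x hxU).2 hx
  have h1 : gmass A B p (S ∪ U) ≤ sSup M := by
    refine le_csSup hbdd ⟨S ∪ U, ?_, rfl⟩
    intro x hx
    rcases Finset.mem_union.mp hx with h | h
    · exact hS x h
    · exact (hU x h).1
  rw [mass_union A B p S U hdis] at h1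
  linarith

theorem sum_shift_le (b : Bool) (hpA : ∀ n, l2le (p n * toC (A n)))
    (hpB : ∀ n, l2le (p n * toC (B n))) {k : ℕ} (N : Fin k → Gam) (hN : Function.Injective N)
    (J : Finset (Fin k)) (γ : Gam) : ∑ j ∈ J, ‖GG A B p b (N j - γ)‖ ^ 2 ≤ 1 := by
  classical
  have h := GG_sum_le A B p hpA hpB b (J.image fun j => N j - γ)
  rwa [Finset.sum_image (by
    intro x _ y _ hxy
    exact hN (sub_left_injective hxy))] at h

theorem sum_shift_le_mass (b : Bool) {k : ℕ} (N : Fin k → Gam) (hN : Function.Injective N)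
    (J : Finset (Fin k)) (γ : Gam) (T : Finset Gam) (hT : ∀ j ∈ J, N j - γ ∈ T) :
    ∑ j ∈ J, ‖GG A B p b (N j - γ)‖ ^ 2 ≤ ∑ x ∈ T, ‖GG A B p b x‖ ^ 2 := by
  classical
  have h : ∑ j ∈ J, ‖GG A B p b (N j - γ)‖ ^ 2 =
      ∑ x ∈ J.image (fun j => N j - γ), ‖GG A B p b x‖ ^ 2 := by
    rw [Finset.sum_image (by
      intro x _ y _ hxy
      exact hN (sub_left_injective hxy))]
  rw [h]
  refine Finset.sum_le_sum_of_subset_of_nonneg ?_ fun _ _ _ => by positivity
  intro x hx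
  rw [Finset.mem_image] at hx
  obtain ⟨j, hj, rfl⟩ := hx
  exact hT j hj

/-- Step A: at most three quarters of the pivots lie in `Δ`. -/
theorem stepA (hpA : ∀ n, l2le (p n * toC (A n)))
    (hpB : ∀ n, l2le (p n * toC (B n))) (c : ℝ) (hc : 0 < c) (hc1 : c ≤ 1)
    (Δ : AddSubgroup Gam) (S F : Finset Gam) (hF : F.Nonempty) (hFΔ : ∀ x ∈ F, x ∈ Δ)
    (htail : ∀ U : Finset Gam, (∀ x ∈ U, x ∈ Δ ∧ x ∉ S) → gmass A B p U ≤ (c ^ 6 / 28) ^ 2)
    [DecidableEq Gam] (hFS : 4 * (F + S).card ≤ 5 * F.card) (i : ℕ)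
    (N : Fin i → Gam) (hN : Function.Injective N) (hNΔ : ∀ j, N j ∈ Δ)
    (hgram : c ^ (2 * i) ≤ (((Matrix.of fun (b : F × Bool) (j : Fin i) =>
            GG A B p b.2 (N j - b.1))ᴴ *
          (Matrix.of fun (b : F × Bool) (j : Fin i) =>
            GG A B p b.2 (N j - b.1))).det).re) :
    2 * i ≤ 3 * F.card := by
  classical
  by_contra hcon
  push Not at hcon
  have hFpos : 0 < F.card := Finset.card_pos.mpr hF
  have hi : 0 < i := by omega
  have : Nonempty (Fin i) := ⟨⟨0, hi⟩⟩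
  set Λ : ℝ := 28 / c ^ 6 with hΛ
  have hc6 : 0 < c ^ 6 := by positivity
  have hc61 : c ^ 6 ≤ 1 := pow_le_one₀ hc.le hc1
  have hΛ1 : 1 ≤ Λ := by
    rw [hΛ, le_div_iff₀ hc6]; linarith
  have hΛpos : 0 < Λ := by linarith
  let good : Finset (Fin i) := Finset.univ.filter fun j => N j ∈ F + S
  let bad : Finset (Fin i) := Finset.univ.filter fun j => ¬ N j ∈ F + S
  let lam : Fin i → ℝ := fun j => if N j ∈ F + S then 1 else Λ
  have hlam : ∀ j, 0 < lam j := by
    intro j; simp only [lam]; split_ifs <;> linarith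
  have hcards : good.card + bad.card = i := by
    have := Finset.card_filter_add_card_filter_not (s := (Finset.univ : Finset (Fin i)))
      (fun j => N j ∈ F + S)
    simpa [good, bad] using this
  have hgood : good.card ≤ (F + S).card := by
    refine Finset.card_le_card_of_injOn N ?_ (hN.injOn)
    intro j hj
    exact (Finset.mem_filter.mp hj).2
  set nb := bad.card with hnb
  have hnb6 : i ≤ 6 * nb := by omega
  have key := det_gram_scaled (Matrix.of fun (b : F × Bool) (j : Fin i) =>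
            GG A B p b.2 (N j - b.1)) lam hlam
  rw [Fintype.card_fin] at key
  -- product of the scaling factors
  have hprod : ∏ j, lam j ^ 2 = Λ ^ (2 * nb) := by
    have h1 : ∀ j, lam j ^ 2 = if N j ∈ F + S then (1 : ℝ) else Λ ^ 2 := by
      intro j; simp only [lam]; split_ifs <;> simp
    simp only [h1]
    rw [Finset.prod_ite]
    simp only [Finset.prod_const_one, Finset.prod_const, one_mul]
    rw [← pow_mul]
  -- the trace
  have hrow : ∀ b : F × Bool, ∑ j : Fin i, lam j ^ 2 * ‖GG A B p b.2 (N j - b.1)‖ ^ 2 ≤ 2 := by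
    intro b
    have h1 : ∀ j : Fin i, lam j ^ 2 * ‖GG A B p b.2 (N j - b.1)‖ ^ 2 ≤
        ‖GG A B p b.2 (N j - b.1)‖ ^ 2 +
          (if N j ∈ F + S then 0 else Λ ^ 2 * ‖GG A B p b.2 (N j - b.1)‖ ^ 2) := by
      intro j
      simp only [lam]
      split_ifs
      · simp
      · nlinarith [sq_nonneg ‖GG A B p b.2 (N j - b.1)‖]
    refine le_trans (Finset.sum_le_sum fun j _ => h1 j) ?_
    rw [Finset.sum_add_distrib]
    have h2 := sum_shift_le A B p b.2 hpA hpB N hN Finset.univ b.1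
    have h3 : ∑ j : Fin i, (if N j ∈ F + S then 0 else Λ ^ 2 * ‖GG A B p b.2 (N j - b.1)‖ ^ 2) =
        Λ ^ 2 * ∑ j ∈ bad, ‖GG A B p b.2 (N j - b.1)‖ ^ 2 := by
      rw [Finset.mul_sum, Finset.sum_filter]
      refine Finset.sum_congr rfl fun j _ => ?_
      split_ifs <;> simp_all
    rw [h3]
    have h4 : ∑ j ∈ bad, ‖GG A B p b.2 (N j - b.1)‖ ^ 2 ≤ (c ^ 6 / 28) ^ 2 := by
      refine le_trans (sum_shift_le_mass A B p b.2 N hN bad b.1
        (bad.image fun j => N j - b.1) fun j hj => Finset.mem_image_of_mem _ hj) ?_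
      refine le_trans (sum_le_mass A B p b.2 _) (htail _ ?_)
      intro x hx
      rw [Finset.mem_image] at hx
      obtain ⟨j, hj, rfl⟩ := hx
      refine ⟨Δ.sub_mem (hNΔ j) (hFΔ _ b.1.2), fun hS => ?_⟩
      refine (Finset.mem_filter.mp hj).2 ?_
      rw [Finset.mem_add]
      exact ⟨b.1, b.1.2, N j - b.1, hS, by abel⟩
    have h5 : Λ ^ 2 * (c ^ 6 / 28) ^ 2 = 1 := by
      rw [hΛ, ← mul_pow]
      field_simp
    nlinarith [sq_nonneg Λ]
  have htr : (∑ j : Fin i, ∑ b : F × Bool, lam j ^ 2 *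
      ‖(Matrix.of fun (b : F × Bool) (j : Fin i) => GG A B p b.2 (N j - b.1)) b j‖ ^ 2) ≤
      4 * F.card := by
    rw [Finset.sum_comm]
    simp only [Matrix.of_apply]
    refine le_trans (Finset.sum_le_sum fun b _ => hrow b) ?_
    simp
    ring_nf
    exact le_refl _
  have hipos : (0 : ℝ) < i := by exact_mod_cast hi
  have hdiv : (∑ j : Fin i, ∑ b : F × Bool, lam j ^ 2 *
      ‖(Matrix.of fun (b : F × Bool) (j : Fin i) => GG A B p b.2 (N j - b.1)) b j‖ ^ 2) / i ≤ 3 := by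
    rw [div_le_iff₀ hipos]
    refine le_trans htr ?_
    have : (3 * F.card : ℝ) < 2 * i := by exact_mod_cast hcon
    linarith
  have hnn : 0 ≤ (∑ j : Fin i, ∑ b : F × Bool, lam j ^ 2 *
      ‖(Matrix.of fun (b : F × Bool) (j : Fin i) => GG A B p b.2 (N j - b.1)) b j‖ ^ 2) / i := by
    refine div_nonneg (Finset.sum_nonneg fun _ _ => Finset.sum_nonneg fun _ _ => by positivity)
      hipos.le
  have hfin : Λ ^ (2 * nb) * c ^ (2 * i) ≤ 3 ^ i := by
    have h1 := pow_le_pow_left₀ hnn hdiv i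
    have h2 : Λ ^ (2 * nb) * c ^ (2 * i) ≤ Λ ^ (2 * nb) *
        (((Matrix.of fun (b : F × Bool) (j : Fin i) =>
            GG A B p b.2 (N j - b.1))ᴴ *
          (Matrix.of fun (b : F × Bool) (j : Fin i) =>
            GG A B p b.2 (N j - b.1))).det).re :=
      mul_le_mul_of_nonneg_left hgram (by positivity)
    rw [hprod] at key
    exact le_trans h2 (le_trans key h1)
  have hcube : (Λ ^ (2 * nb) * c ^ (2 * i)) ^ 3 ≤ (3 ^ i) ^ 3 :=
    pow_le_pow_left₀ (by positivity) hfin 3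
  have h28 : (28 : ℝ) ^ i ≤ (Λ ^ (2 * nb) * c ^ (2 * i)) ^ 3 := by
    have h1 : (28 : ℝ) ^ i = Λ ^ i * (c ^ 6) ^ i := by
      rw [← mul_pow, hΛ, div_mul_cancel₀ _ hc6.ne']
    have h2 : (Λ ^ (2 * nb) * c ^ (2 * i)) ^ 3 = Λ ^ (6 * nb) * (c ^ 6) ^ i := by
      rw [mul_pow, ← pow_mul, ← pow_mul, ← pow_mul]
      congr 2 <;> ring
    rw [h1, h2]
    exact mul_le_mul_of_nonneg_right (pow_le_pow_right₀ hΛ1 hnb6) (by positivity)
  have h27 : ((3 : ℝ) ^ i) ^ 3 = 27 ^ i := by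
    rw [← pow_mul, mul_comm, pow_mul]; norm_num
  have hlt : (27 : ℝ) ^ i < 28 ^ i := pow_lt_pow_left₀ (by norm_num) (by norm_num) hi.ne'
  linarith

/-- Step B: the mass of the new differences. -/
theorem stepB (hpA : ∀ n, l2le (p n * toC (A n)))
    (hpB : ∀ n, l2le (p n * toC (B n))) (c : ℝ) (hc : 0 < c) (hc1 : c ≤ 1)
    (F : Finset Gam) (hF : F.Nonempty) (k : ℕ) (hk : k = 2 * F.card)
    (N : Fin k → Gam) (hN : Function.Injective N) (J : Finset (Fin k)) (hJ : k ≤ 4 * J.card)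
    (T : Finset Gam) (hT : ∀ j ∈ J, ∀ γ ∈ F, N j - γ ∈ T)
    (hgram : c ^ (2 * k) ≤ (((Matrix.of fun (b : F × Bool) (j : Fin k) =>
            GG A B p b.2 (N j - b.1))ᴴ *
          (Matrix.of fun (b : F × Bool) (j : Fin k) =>
            GG A B p b.2 (N j - b.1))).det).re) :
    2 * c ^ 8 / 17 < gmass A B p T := by
  classical
  by_contra hcon
  push Not at hcon
  have hFpos : 0 < F.card := Finset.card_pos.mpr hF
  have hkpos : 0 < k := by omega
  have : Nonempty (Fin k) := ⟨⟨0, hkpos⟩⟩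
  have hc8 : 0 < c ^ 8 := by positivity
  set Λ : ℝ := Real.sqrt (17 / c ^ 8) with hΛ
  have hΛ2 : Λ ^ 2 = 17 / c ^ 8 := Real.sq_sqrt (by positivity)
  have hΛpos : 0 < Λ := Real.sqrt_pos.mpr (by positivity)
  let lam : Fin k → ℝ := fun j => if j ∈ J then Λ else 1
  have hlam : ∀ j, 0 < lam j := by
    intro j; simp only [lam]; split_ifs <;> linarith
  have key := det_gram_scaled (Matrix.of fun (b : F × Bool) (j : Fin k) =>
            GG A B p b.2 (N j - b.1)) lam hlam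
  rw [Fintype.card_fin] at key
  have hprod : ∏ j, lam j ^ 2 = (17 / c ^ 8) ^ J.card := by
    have h1 : ∀ j, lam j ^ 2 = if j ∈ J then (17 / c ^ 8 : ℝ) else 1 := by
      intro j; simp only [lam]; split_ifs
      · exact hΛ2
      · simp
    simp only [h1]
    rw [Finset.prod_ite]
    simp [div_pow]
  have hrow : ∀ b : F × Bool, ∑ j : Fin k, lam j ^ 2 * ‖GG A B p b.2 (N j - b.1)‖ ^ 2 ≤
      1 + 17 / c ^ 8 * ∑ x ∈ T, ‖GG A B p b.2 x‖ ^ 2 := by
    intro b
    have h1 : ∀ j : Fin k, lam j ^ 2 * ‖GG A B p b.2 (N j - b.1)‖ ^ 2 ≤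
        ‖GG A B p b.2 (N j - b.1)‖ ^ 2 +
          (if j ∈ J then 17 / c ^ 8 * ‖GG A B p b.2 (N j - b.1)‖ ^ 2 else 0) := by
      intro j
      simp only [lam]
      split_ifs
      · rw [hΛ2]; nlinarith [sq_nonneg ‖GG A B p b.2 (N j - b.1)‖]
      · simp
    refine le_trans (Finset.sum_le_sum fun j _ => h1 j) ?_
    rw [Finset.sum_add_distrib]
    have h2 := sum_shift_le A B p b.2 hpA hpB N hN Finset.univ b.1
    have h3 : ∑ j : Fin k, (if j ∈ J then 17 / c ^ 8 * ‖GG A B p b.2 (N j - b.1)‖ ^ 2 else 0) =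
        17 / c ^ 8 * ∑ j ∈ J, ‖GG A B p b.2 (N j - b.1)‖ ^ 2 := by
      rw [Finset.mul_sum, ← Finset.sum_filter]
      congr 1
      ext j; simp
    rw [h3]
    have h4 := sum_shift_le_mass A B p b.2 N hN J b.1 T fun j hj => hT j hj _ b.1.2
    have h5 : 17 / c ^ 8 * ∑ j ∈ J, ‖GG A B p b.2 (N j - b.1)‖ ^ 2 ≤
        17 / c ^ 8 * ∑ x ∈ T, ‖GG A B p b.2 x‖ ^ 2 :=
      mul_le_mul_of_nonneg_left h4 (by positivity)
    linarith
  have htr : (∑ j : Fin k, ∑ b : F × Bool, lam j ^ 2 *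
      ‖(Matrix.of fun (b : F × Bool) (j : Fin k) => GG A B p b.2 (N j - b.1)) b j‖ ^ 2) ≤
      2 * k := by
    rw [Finset.sum_comm]
    simp only [Matrix.of_apply]
    refine le_trans (Finset.sum_le_sum fun b _ => hrow b) ?_
    rw [Fintype.sum_prod_type]
    have h1 : ∀ x : F, ∑ y : Bool, (1 + 17 / c ^ 8 * ∑ z ∈ T, ‖GG A B p y z‖ ^ 2) =
        2 + 17 / c ^ 8 * gmass A B p T := by
      intro x
      rw [Fintype.sum_bool, gmass_eq]
      ring
    rw [Finset.sum_congr rfl (fun x _ => h1 x)]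
    rw [Finset.sum_const, Finset.card_univ, Fintype.card_coe, nsmul_eq_mul]
    have h2 : 17 / c ^ 8 * gmass A B p T ≤ 2 := by
      calc 17 / c ^ 8 * gmass A B p T ≤ 17 / c ^ 8 * (2 * c ^ 8 / 17) :=
            mul_le_mul_of_nonneg_left hcon (by positivity)
        _ = 2 := by field_simp
    have h3 : (k : ℝ) = 2 * F.card := by rw [hk]; push_cast; ring
    rw [h3]
    have h4 : (0 : ℝ) ≤ F.card := by positivity
    nlinarith
  have hkR : (0 : ℝ) < k := by exact_mod_cast hkpos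
  have hdiv : (∑ j : Fin k, ∑ b : F × Bool, lam j ^ 2 *
      ‖(Matrix.of fun (b : F × Bool) (j : Fin k) => GG A B p b.2 (N j - b.1)) b j‖ ^ 2) / k ≤ 2 := by
    rw [div_le_iff₀ hkR]
    exact htr
  have hnn : 0 ≤ (∑ j : Fin k, ∑ b : F × Bool, lam j ^ 2 *
      ‖(Matrix.of fun (b : F × Bool) (j : Fin k) => GG A B p b.2 (N j - b.1)) b j‖ ^ 2) / k := by
    refine div_nonneg (Finset.sum_nonneg fun _ _ => Finset.sum_nonneg fun _ _ => by positivity)
      hkR.le
  have hfin : (17 / c ^ 8) ^ J.card * c ^ (2 * k) ≤ 2 ^ k := by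
    have h1 := pow_le_pow_left₀ hnn hdiv k
    have h2 : (17 / c ^ 8) ^ J.card * c ^ (2 * k) ≤ (17 / c ^ 8) ^ J.card *
        (((Matrix.of fun (b : F × Bool) (j : Fin k) =>
            GG A B p b.2 (N j - b.1))ᴴ *
          (Matrix.of fun (b : F × Bool) (j : Fin k) =>
            GG A B p b.2 (N j - b.1))).det).re :=
      mul_le_mul_of_nonneg_left hgram (by positivity)
    rw [hprod] at key
    exact le_trans h2 (le_trans key h1)
  have h17 : (17 : ℝ) ^ J.card ≤ (17 / c ^ 8) ^ J.card * c ^ (2 * k) := by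
    have h1 : (17 : ℝ) ^ J.card = (17 / c ^ 8) ^ J.card * (c ^ 8) ^ J.card := by
      rw [← mul_pow, div_mul_cancel₀ _ hc8.ne']
    rw [h1]
    refine mul_le_mul_of_nonneg_left ?_ (by positivity)
    rw [← pow_mul]
    exact pow_le_pow_of_le_one hc.le hc1 (by omega)
  have h16 : (2 : ℝ) ^ k ≤ 16 ^ J.card := by
    calc (2 : ℝ) ^ k ≤ 2 ^ (4 * J.card) := pow_le_pow_right₀ (by norm_num) hJ
      _ = 16 ^ J.card := by rw [pow_mul]; norm_num
  have hlt : (16 : ℝ) ^ J.card < 17 ^ J.card :=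
    pow_lt_pow_left₀ (by norm_num) (by norm_num) (by omega)
  linarith

/-- One step of the chain. -/
theorem inc_step (hpA : ∀ n, l2le (p n * toC (A n)))
    (hpB : ∀ n, l2le (p n * toC (B n))) (c : ℝ) (hc : 0 < c) (hc1 : c ≤ 1)
    (hp : ∀ n, c ≤ ‖(p n).coeff 0‖)
    (hind : ∀ F : Finset Gam, ∀ᶠ n in UU, LinearIndependent ℂ
      (fun (β : F × Bool) (γ : ℤ) => ((Ev A B n ((β.1 : Gam), β.2) γ : ℤ) : ℂ)))
    (Δ : AddSubgroup Gam) (hΔ : Cvx Δ) :
    ∃ Δ' : AddSubgroup Gam, Cvx Δ' ∧ Δ ≤ Δ' ∧ ∃ T : Finset Gam,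
      (∀ x ∈ T, x ∈ Δ' ∧ x ∉ Δ) ∧ 2 * c ^ 8 / 17 < gmass A B p T := by
  classical
  obtain ⟨S, hSΔ, htail⟩ := exists_tail A B p hpA hpB Δ ((c ^ 6 / 28) ^ 2) (by positivity)
  obtain ⟨F, hF, hFcl, hFS⟩ := sumset_growth S
  have hFΔ : ∀ x ∈ F, x ∈ Δ := fun x hx =>
    (AddSubgroup.closure_le Δ).mpr (fun y hy => hSΔ y hy) (hFcl x hx)
  have hGL := gram_limit A B p hpA hpB c hc hp F hF (hind F)
  have hkF : Fintype.card (F × Bool) = 2 * F.card := by
    rw [Fintype.card_prod, Fintype.card_coe, Fintype.card_bool, mul_comm]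
  generalize Fintype.card (F × Bool) = k at hGL hkF
  obtain ⟨N, hNmono, hNmin, hgram⟩ := hGL
  have hFpos : 0 < F.card := Finset.card_pos.mpr hF
  have hminΔ : F.min' hF ∈ Δ := hFΔ _ (F.min'_mem hF)
  -- initial segment
  have hdown : ∀ j j' : Fin k, j' ≤ j → N j ∈ Δ → N j' ∈ Δ := fun j j' hjj hj =>
    hΔ.mem_of_le hminΔ hj (hNmin j') (hNmono.monotone hjj)
  obtain ⟨i, hik, hi⟩ : ∃ i, i ≤ k ∧ ∀ j : Fin k, N j ∈ Δ ↔ (j : ℕ) < i := by
    by_cases h : ∃ m : ℕ, ∃ hm : m < k, N ⟨m, hm⟩ ∉ Δ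
    · obtain ⟨hm, hmΔ⟩ := Nat.find_spec h
      refine ⟨Nat.find h, hm.le, fun j => ⟨fun hj => ?_, fun hj => ?_⟩⟩
      · by_contra hlt
        push Not at hlt
        exact hmΔ (hdown j ⟨Nat.find h, hm⟩ hlt hj)
      · by_contra hj'
        exact Nat.find_min h hj ⟨j.2, hj'⟩
    · push Not at h
      exact ⟨k, le_refl k, fun j => ⟨fun _ => j.2, fun _ => h j j.2⟩⟩
  have hA := stepA A B p hpA hpB c hc hc1 Δ S F hF hFΔ htail hFS i
    (fun j => N (Fin.castLE hik j))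
    (fun a b hab => Fin.castLE_injective hik (hNmono.injective hab))
    (fun j => (hi _).mpr j.2) (hgram i hik)
  have hik' : i < k := by omega
  -- the last pivot
  let last : Fin k := ⟨k - 1, by omega⟩
  have hlast : N last ∉ Δ := fun h => by
    have := (hi last).mp h
    simp only [last] at this
    omega
  have habove : ∀ j : Fin k, N j ∉ Δ → ∀ δ ∈ Δ, |δ| < N j := by
    intro j hj δ hδ
    by_contra hle
    push Not at hle
    refine hj (hΔ.mem_of_le hminΔ (hΔ δ hδ |δ| (by rw [abs_abs])) (hNmin j) hle)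
  have hlast0 : 0 < N last := by simpa using habove last hlast 0 Δ.zero_mem
  let J : Finset (Fin k) := Finset.univ.filter fun j => i ≤ (j : ℕ)
  have hJcard : J.card = k - i := by
    have h1 : J = Finset.univ.filter fun j : Fin k => ¬ ((j : ℕ) < i) := by
      simp only [J, not_lt]
    have h2 := Finset.card_filter_add_card_filter_not (s := (Finset.univ : Finset (Fin k)))
      (fun j => (j : ℕ) < i)
    have h3 : (Finset.univ.filter fun j : Fin k => (j : ℕ) < i).card = i := by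
      have : (Finset.univ.filter fun j : Fin k => (j : ℕ) < i) =
          Finset.univ.map (Fin.castLEEmb hik) := by
        ext j
        simp only [Finset.mem_filter, Finset.mem_univ, true_and, Finset.mem_map,
          Fin.castLEEmb_apply]
        constructor
        · intro hj
          exact ⟨⟨j, hj⟩, by ext; simp⟩
        · rintro ⟨a, rfl⟩
          exact a.2
      rw [this]; simp
    rw [← h1, h3] at h2
    simp at h2
    omega
  let T : Finset Gam := (J ×ˢ F).image fun x => N x.1 - x.2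
  refine ⟨hull (N last) hlast0.le, hull_cvx _ _, ?_, T, ?_, ?_⟩
  · intro δ hδ
    exact mem_hull_of_abs_le _ 1 (by rw [one_smul]; exact (habove last hlast δ hδ).le)
  · intro x hx
    simp only [T, Finset.mem_image, Finset.mem_product] at hx
    obtain ⟨⟨j, γ⟩, ⟨hj, hγ⟩, rfl⟩ := hx
    have hjΔ : N j ∉ Δ := fun h => by
      have h1 := (hi j).mp h
      have h2 : i ≤ (j : ℕ) := (Finset.mem_filter.mp hj).2
      omega
    refine ⟨?_, fun h => hjΔ ?_⟩
    · refine mem_hull_of_abs_le _ 2 ?_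
      have h0 : 0 < N j := by simpa using habove j hjΔ 0 Δ.zero_mem
      have h1 : |N j| ≤ N last := by
        rw [abs_of_pos h0]
        refine hNmono.monotone ?_
        rw [Fin.le_def]
        have := j.2
        simp only [last]
        omega
      have h2 : |γ| ≤ N last := (habove last hlast γ (hFΔ γ hγ)).le
      calc |N j - γ| ≤ |N j| + |γ| := abs_sub _ _
        _ ≤ N last + N last := add_le_add h1 h2
        _ = 2 • N last := (two_nsmul _).symm
    · have := Δ.add_mem h (hFΔ γ hγ)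
      simpa using this
  · refine stepB A B p hpA hpB c hc hc1 F hF k hkF N hNmono.injective J (by omega) T ?_ ?_
    · intro j hj γ hγ
      simp only [T, Finset.mem_image, Finset.mem_product]
      exact ⟨(j, γ), ⟨hj, hγ⟩, rfl⟩
    · have := hgram k le_rfl
      simpa using this

theorem chain_contradiction (hpA : ∀ n, l2le (p n * toC (A n)))
    (hpB : ∀ n, l2le (p n * toC (B n))) (c : ℝ) (hc : 0 < c)
    (hp : ∀ n, c ≤ ‖(p n).coeff 0‖)
    (hind : ∀ F : Finset Gam, ∀ᶠ n in UU, LinearIndependent ℂ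
      (fun (β : F × Bool) (γ : ℤ) => ((Ev A B n ((β.1 : Gam), β.2) γ : ℤ) : ℂ))) : False := by
  classical
  set c' := min c 1 with hc'
  have hc'0 : 0 < c' := lt_min hc one_pos
  have hc'1 : c' ≤ 1 := min_le_right _ _
  have hp' : ∀ n, c' ≤ ‖(p n).coeff 0‖ := fun n => le_trans (min_le_left _ _) (hp n)
  set θ := 2 * c' ^ 8 / 17 with hθ
  have hθ0 : 0 < θ := by positivity
  have hchain : ∀ m : ℕ, ∃ Δ : AddSubgroup Gam, Cvx Δ ∧ ∃ T : Finset Gam, (∀ x ∈ T, x ∈ Δ) ∧
      m * θ ≤ gmass A B p T := by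
    intro m
    induction m with
    | zero =>
      refine ⟨⊥, ?_, ∅, by simp, ?_⟩
      · intro a ha b hb
        rw [AddSubgroup.mem_bot] at ha ⊢
        rw [ha, abs_zero] at hb
        exact abs_nonpos_iff.mp hb
      · simp [gmass]
    | succ m ih =>
      obtain ⟨Δ, hΔ, T, hT, hm⟩ := ih
      obtain ⟨Δ', hΔ', hle, T', hT', hm'⟩ := inc_step A B p hpA hpB c' hc'0 hc'1 hp' hind Δ hΔ
      refine ⟨Δ', hΔ', T ∪ T', ?_, ?_⟩
      · intro x hx
        rcases Finset.mem_union.mp hx with h | h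
        · exact hle (hT x h)
        · exact (hT' x h).1
      · rw [mass_union A B p T T']
        · push_cast
          linarith
        · rw [Finset.disjoint_left]
          intro x hx hx'
          exact (hT' x hx').2 (hT x hx)
  obtain ⟨m, hm⟩ := exists_nat_gt (2 / θ)
  obtain ⟨_, _, T, _, hT⟩ := hchain m
  have h1 := mass_le_two A B p hpA hpB T
  rw [div_lt_iff₀ hθ0] at hm
  linarith

end

end

end Pool.Agent.H261R2.CM
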