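import Mathlib

/-!
# Closedness of the set of Mahler measures of nonreciprocal polynomials: definitions

`zc A N`      coefficient of the polynomial `A` at the integer exponent `N`
`conv p v`    convolution of a two-sided sequence with (the coefficients of) a polynomial
`ez t`        the point `exp (2 π i t)` of the unit circle
`tv P t`      value of an integer polynomial in `k` variables at a point of the torus
`mM P`        Mahler measure of an integer polynomial in `k` variables
`m1 A`        Mahler measure of an integer polynomial in one variable (Mathlib)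
`spec e`      the substitution `X_i ↦ X ^ (e i)`
`ev1 A t`     value of the integer polynomial `A` at `ez t`
-/

set_option autoImplicit false

namespace Pool.Agent.H261R2.CM

open Polynomial Filter MeasureTheory

noncomputable section

/-- Coefficient of a polynomial at an integer exponent (zero at negative exponents). -/
def zc {R : Type*} [Semiring R] (A : R[X]) (N : ℤ) : R := if 0 ≤ N then A.coeff N.toNat else 0

/-- Convolution of a two-sided sequence `v` with the coefficients of a polynomial `p`. -/
def conv (p : ℂ[X]) (v : ℤ → ℂ) : ℤ → ℂ := fun N => p.sum fun j c => c * v (N - (j : ℤ))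

/-- Complexification of an integer polynomial. -/
def toC (A : ℤ[X]) : ℂ[X] := A.map (Int.castRingHom ℂ)

/-- The point `exp (2 π i t)` of the unit circle. -/
def ez (t : ℝ) : ℂ := Complex.exp (2 * (Real.pi : ℂ) * Complex.I * (t : ℂ))

/-- Value of an integer polynomial in one variable at `ez t`. -/
def ev1 (A : ℤ[X]) (t : ℝ) : ℂ := (toC A).eval (ez t)

/-- Value of an integer polynomial in `k` variables at the torus point
`(exp (2 π i t_1), …, exp (2 π i t_k))`. -/
def tv {k : ℕ} (P : MvPolynomial (Fin k) ℤ) (t : Fin k → ℝ) : ℂ :=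
  MvPolynomial.eval (fun j : Fin k => Complex.exp (2 * (Real.pi : ℂ) * Complex.I * ((t j : ℝ) : ℂ)))
    (MvPolynomial.map (Int.castRingHom ℂ) P)

/-- Mahler measure of an integer polynomial in `k` variables (as in the frozen statement). -/
def mM {k : ℕ} (P : MvPolynomial (Fin k) ℤ) : ℝ :=
  Real.exp (∫ t in Set.Icc (0 : Fin k → ℝ) 1, Real.log ‖tv P t‖)

/-- Mahler measure of a one-variable integer polynomial (Mathlib). -/
def m1 (A : ℤ[X]) : ℝ := (toC A).mahlerMeasure

/-- The substitution `X_i ↦ X ^ (e i)`. -/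
def spec {k : ℕ} (e : Fin k → ℕ) : MvPolynomial (Fin k) ℤ →ₐ[ℤ] ℤ[X] :=
  MvPolynomial.aeval fun i => (X : ℤ[X]) ^ (e i)

/-- Coprime pairs of one-variable integer polynomials with the same modulus on the unit circle. -/
def Pair1 (A B : ℤ[X]) : Prop :=
  A ≠ 0 ∧ B ≠ 0 ∧ IsRelPrime A B ∧ ∀ t : ℝ, ‖ev1 A t‖ = ‖ev1 B t‖

/-- Coprime pairs of integer polynomials in `k` variables with the same modulus on the torus. -/
def PairK {k : ℕ} (C D : MvPolynomial (Fin k) ℤ) : Prop :=
  C ≠ 0 ∧ D ≠ 0 ∧ IsRelPrime C D ∧ ∀ t : Fin k → ℝ, ‖tv C t‖ = ‖tv D t‖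

/-- `e n` is asymptotically independent along the filter. -/
def AsympIndep {k : ℕ} (𝓕 : Filter ℕ) (e : ℕ → Fin k → ℕ) : Prop :=
  ∀ s : Fin k → ℤ, s ≠ 0 → ∀ᶠ n in 𝓕, ∑ i, s i * (e n i : ℤ) ≠ 0

/-- `ℓ²` bound for the coefficients of a polynomial. -/
def l2le (P : ℂ[X]) : Prop := ∑ j ∈ P.support, ‖P.coeff j‖ ^ 2 ≤ 1

/-- The ultraproduct of the integers. -/
abbrev Gam : Type := Filter.Germ ((Filter.hyperfilter ℕ : Ultrafilter ℕ) : Filter ℕ) ℤ

/-- A representative of an element of the ultraproduct. -/
def rep (γ : Gam) : ℕ → ℤ := Quotient.out γ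

/-- The shifted coefficient sequences `X ^ γ * A`, `X ^ γ * B` at level `n`. -/
def Ev (A B : ℕ → ℤ[X]) (n : ℕ) (β : Gam × Bool) : ℤ → ℤ :=
  fun N => zc (if β.2 then A n else B n) (N - rep β.1 n)

end

end Pool.Agent.H261R2.CM
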