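import Pool.Agent.H2.L.R_seed8.H261R2.CM.Defs

/-! Task G of table `h261_tasks` (helper432): from the relation to a coprime pair. -/

set_option autoImplicit false

namespace Pool.Agent.H261R2.CM

open Polynomial Filter MeasureTheory Matrix

noncomputable section

namespace TG

theorem rep_spec (γ : Gam) : ((rep γ : ℕ → ℤ) : Gam) = γ := Quotient.out_eq γ

theorem germ_sum {k : ℕ} (b : Fin k → Gam) (c : Fin k → ℤ) :
    (((fun n => ∑ i, c i * rep (b i) n : ℕ → ℤ)) : Gam) = ∑ i, c i • b i := by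
  have h1 : (fun n => ∑ i, c i * rep (b i) n : ℕ → ℤ) = ∑ i, c i • (rep (b i)) := by
    funext n
    simp [Finset.sum_apply]
  rw [h1]
  have h2 := map_sum (Filter.Germ.coeAddHom ((hyperfilter ℕ : Ultrafilter ℕ) : Filter ℕ))
    (fun i => c i • (rep (b i) : ℕ → ℤ)) Finset.univ
  have h3 : (Filter.Germ.coeAddHom ((hyperfilter ℕ : Ultrafilter ℕ) : Filter ℕ))
      (∑ i, c i • (rep (b i) : ℕ → ℤ)) = ((∑ i, c i • (rep (b i) : ℕ → ℤ) : ℕ → ℤ) : Gam) := rfl
  rw [← h3, h2]
  refine Finset.sum_congr rfl fun i _ => ?_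
  rw [map_zsmul]
  congr 1
  exact rep_spec (b i)

theorem rel_iff {k : ℕ} (b : Fin k → Gam) (c : Fin k → ℤ) (γ : Gam) :
    (∑ i, c i • b i = γ) ↔
      ∀ᶠ n in ((hyperfilter ℕ : Ultrafilter ℕ) : Filter ℕ), ∑ i, c i * rep (b i) n = rep γ n := by
  rw [← germ_sum b c]
  conv_lhs => rw [← rep_spec γ]
  rw [Filter.Germ.coe_eq]
  rfl

theorem rel_zero {k : ℕ} (b : Fin k → Gam) (c : Fin k → ℤ) :
    (∑ i, c i • b i = 0) ↔
      ∀ᶠ n in ((hyperfilter ℕ : Ultrafilter ℕ) : Filter ℕ), ∑ i, c i * rep (b i) n = 0 := by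
  rw [← germ_sum b c]
  have h0 : (0 : Gam) = ((fun _ => (0 : ℤ) : ℕ → ℤ) : Gam) := rfl
  rw [h0, Filter.Germ.coe_eq]
  rfl

/-- Positive basis of a finitely generated nonzero subgroup. -/
theorem exists_pos_basis (F : Finset Gam) :
    ∃ (k : ℕ) (b : Fin k → Gam) (a : Gam → Fin k → ℤ), 1 ≤ k ∧ (∀ i, 0 < b i) ∧
      (∀ c : Fin k → ℤ, ∑ i, c i • b i = 0 → c = 0) ∧ (∀ γ ∈ F, ∑ i, a γ i • b i = γ) := by
  classical
  set S : Submodule ℤ Gam := Submodule.span ℤ ((insert (1 : Gam) F : Finset Gam) : Set Gam) with hS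
  have : Module.Finite ℤ S := by
    rw [hS]
    exact Module.Finite.span_of_finite ℤ (Finset.finite_toSet _)
  have hTF : Module.IsTorsionFree ℤ Gam := by
    infer_instance
  have : Module.Free ℤ S := Module.free_of_finite_type_torsion_free'
  have h1S : (1 : Gam) ∈ S := Submodule.subset_span (by simp)
  have : Nontrivial S := by
    refine ⟨⟨⟨1, h1S⟩, 0, ?_⟩⟩
    intro h
    have h' : (1 : Gam) = 0 := congrArg Subtype.val h
    exact one_ne_zero h'
  set b₀ := Module.finBasis ℤ S with hb₀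
  have hne : ∀ i, (b₀ i : Gam) ≠ 0 := by
    intro i h
    exact b₀.ne_zero i (Subtype.ext h)
  set w : Fin (Module.finrank ℤ S) → ℤˣ := fun i => if 0 < (b₀ i : Gam) then 1 else -1 with hw
  set b₁ := b₀.unitsSMul w with hb₁
  have hpos : ∀ i, 0 < (b₁ i : Gam) := by
    intro i
    rw [hb₁, Module.Basis.unitsSMul_apply]
    by_cases hi : 0 < (b₀ i : Gam)
    · simp [hw, hi]
    · have hlt : (b₀ i : Gam) < 0 := lt_of_le_of_ne (not_lt.1 hi) (hne i)
      simp [hw, hi]
      exact hlt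
  refine ⟨Module.finrank ℤ S, fun i => (b₁ i : Gam),
    fun γ => if h : γ ∈ S then fun i => b₁.repr ⟨γ, h⟩ i else 0, Module.finrank_pos, hpos, ?_, ?_⟩
  · intro c hc
    have hli := b₁.linearIndependent
    rw [Fintype.linearIndependent_iff] at hli
    have hc' : ∑ i, c i • b₁ i = 0 := by
      apply Subtype.ext
      simpa using hc
    funext i
    exact hli c hc' i
  · intro γ hγ
    have hγS : γ ∈ S := Submodule.subset_span (by simp [hγ])
    simp only [dif_pos hγS]
    have h := b₁.sum_repr ⟨γ, hγS⟩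
    have h' : ((∑ i, b₁.repr ⟨γ, hγS⟩ i • b₁ i : S) : Gam) = γ := congrArg Subtype.val h
    rw [Submodule.coe_sum] at h'
    exact h'

theorem spec_monomial {k : ℕ} (e : Fin k → ℕ) (m : Fin k →₀ ℕ) (c : ℤ) :
    spec e (MvPolynomial.monomial m c) = Polynomial.C c * X ^ (∑ i, m i * e i) := by
  unfold spec
  rw [MvPolynomial.aeval_monomial]
  have h1 : (algebraMap ℤ ℤ[X]) c = Polynomial.C c := rfl
  rw [h1]
  congr 1
  rw [Finsupp.prod_fintype]
  · rw [← Finset.prod_pow_eq_pow_sum]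
    refine Finset.prod_congr rfl fun i _ => ?_
    rw [← pow_mul, mul_comm]
  · intro i
    simp

theorem coeff_mono_mul (A : ℤ[X]) (c : ℤ) (E M : ℕ) :
    (Polynomial.C c * X ^ E * A).coeff M = c * zc A ((M : ℤ) - (E : ℤ)) := by
  rw [mul_assoc, Polynomial.coeff_C_mul, Polynomial.coeff_X_pow_mul']
  unfold zc
  by_cases h : E ≤ M
  · have h1 : (0 : ℤ) ≤ (M : ℤ) - (E : ℤ) := by omega
    rw [if_pos h, if_pos h1]
    congr 2
    omega
  · have h1 : ¬ (0 : ℤ) ≤ (M : ℤ) - (E : ℤ) := by omega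
    rw [if_neg h, if_neg h1]

theorem spec_ne_zero' {k : ℕ} (𝓕 : Filter ℕ) (e : ℕ → Fin k → ℕ)
    (he : AsympIndep 𝓕 e) (C : MvPolynomial (Fin k) ℤ) (hC : C ≠ 0) :
    ∀ᶠ n in 𝓕, spec (e n) C ≠ 0 := by
  classical
  obtain ⟨s, hs⟩ := MvPolynomial.support_nonempty.2 hC
  have hev : ∀ᶠ n in 𝓕, ∀ s' ∈ C.support, s' ≠ s →
      ∑ i, ((s' i : ℤ) - (s i : ℤ)) * (e n i : ℤ) ≠ 0 := by
    rw [Filter.eventually_all_finset]
    intro s' hs'
    by_cases h : s' = s
    · exact Filter.Eventually.of_forall fun n hn => absurd h hn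
    · have hne : (fun i => (s' i : ℤ) - (s i : ℤ)) ≠ 0 := by
        intro h0
        apply h
        ext i
        have := congrFun h0 i
        simp only [Pi.zero_apply] at this
        omega
      filter_upwards [he _ hne] with n hn _
      exact hn
  filter_upwards [hev] with n hn h0
  have hexp : spec (e n) C = ∑ s' ∈ C.support, Polynomial.C (C.coeff s') * X ^ (∑ i, s' i * e n i) := by
    conv_lhs => rw [C.as_sum]
    rw [map_sum]
    exact Finset.sum_congr rfl fun s' _ => spec_monomial _ _ _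
  have hco : (spec (e n) C).coeff (∑ i, s i * e n i) = C.coeff s := by
    rw [hexp, Polynomial.finset_sum_coeff, Finset.sum_eq_single_of_mem s hs]
    · simp
    · intro s' hs' hne
      rw [Polynomial.coeff_C_mul, Polynomial.coeff_X_pow, if_neg, mul_zero]
      intro heq
      apply hn s' hs' hne
      have : ∑ i, ((s' i : ℤ) - (s i : ℤ)) * (e n i : ℤ) =
          ((∑ i, s' i * e n i : ℕ) : ℤ) - ((∑ i, s i * e n i : ℕ) : ℤ) := by
        push_cast
        rw [← Finset.sum_sub_distrib]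
        exact Finset.sum_congr rfl fun i _ => by ring
      rw [this, ← heq, sub_self]
  rw [h0, Polynomial.coeff_zero] at hco
  exact (MvPolynomial.mem_support_iff.1 hs) hco.symm

end TG

open TG in
theorem structure_of_relation (A B : ℕ → ℤ[X]) (hA : ∀ n, A n ≠ 0) (hB : ∀ n, B n ≠ 0)
    (F : Finset Gam) (x : Gam → Bool → ℤ) (hx : ∃ γ ∈ F, ∃ b, x γ b ≠ 0)
    (hrel : ∀ᶠ n in (hyperfilter ℕ : Filter ℕ), ∀ N : ℤ,
      ∑ γ ∈ F, (x γ true * zc (A n) (N - rep γ n) + x γ false * zc (B n) (N - rep γ n)) = 0) :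
    ∃ (k : ℕ) (e : ℕ → Fin k → ℕ) (C D : MvPolynomial (Fin k) ℤ), 1 ≤ k ∧ C ≠ 0 ∧ D ≠ 0 ∧
      IsRelPrime C D ∧ AsympIndep (hyperfilter ℕ : Filter ℕ) e ∧
      ∀ᶠ n in (hyperfilter ℕ : Filter ℕ), spec (e n) D * A n = spec (e n) C * B n := by
  classical
  obtain ⟨k, b, a, hk, hbpos, hind, hspan⟩ := exists_pos_basis F
  set e : ℕ → Fin k → ℕ := fun n i => (rep (b i) n).toNat with he
  -- eventually the exponents represent the basis
  have hev_e : ∀ᶠ n in (hyperfilter ℕ : Filter ℕ), ∀ i, (e n i : ℤ) = rep (b i) n := by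
    rw [Filter.eventually_all]
    intro i
    have h1 : (0 : Gam) < ((rep (b i) : ℕ → ℤ) : Gam) := by
      rw [rep_spec]
      exact hbpos i
    have h2 := (Filter.Germ.coe_pos (φ := hyperfilter ℕ) (f := rep (b i))).1 h1
    filter_upwards [h2] with n hn
    simp only [he]
    exact Int.toNat_of_nonneg hn.le
  have hAI : AsympIndep (hyperfilter ℕ : Filter ℕ) e := by
    intro s hs
    rw [Ultrafilter.eventually_not]
    intro h0
    apply hs
    apply hind s
    rw [rel_zero]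
    filter_upwards [h0, hev_e] with n h0 h1
    rw [← h0]
    exact Finset.sum_congr rfl fun i _ => by rw [h1 i]
  -- coordinates
  have hcoord : ∀ᶠ n in (hyperfilter ℕ : Filter ℕ), ∀ γ ∈ F,
      ∑ i, a γ i * (e n i : ℤ) = rep γ n := by
    rw [Filter.eventually_all_finset]
    intro γ hγ
    have := (rel_iff b (a γ) γ).1 (hspan γ hγ)
    filter_upwards [this, hev_e] with n h0 h1
    rw [← h0]
    exact Finset.sum_congr rfl fun i _ => by rw [h1 i]
  -- the shift
  set a0 : ℕ := ∑ γ ∈ F, ∑ i, (a γ i).natAbs with ha0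
  have hshift : ∀ γ ∈ F, ∀ i, 0 ≤ a γ i + (a0 : ℤ) := by
    intro γ hγ i
    have h1 : (a γ i).natAbs ≤ ∑ i, (a γ i).natAbs :=
      Finset.single_le_sum (f := fun i => (a γ i).natAbs) (fun _ _ => Nat.zero_le _) (Finset.mem_univ i)
    have h2 : ∑ i, (a γ i).natAbs ≤ a0 :=
      Finset.single_le_sum (f := fun γ => ∑ i, (a γ i).natAbs) (fun _ _ => Nat.zero_le _) hγ
    omega
  set m : Gam → (Fin k →₀ ℕ) := fun γ =>
    Finsupp.equivFunOnFinite.symm (fun i => (a γ i + (a0 : ℤ)).toNat) with hm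
  have hm_apply : ∀ γ ∈ F, ∀ i, ((m γ i : ℕ) : ℤ) = a γ i + (a0 : ℤ) := by
    intro γ hγ i
    simp only [hm, Finsupp.equivFunOnFinite_symm_apply_apply]
    exact Int.toNat_of_nonneg (hshift γ hγ i)
  have hm_inj : ∀ γ ∈ F, ∀ γ' ∈ F, m γ = m γ' → γ = γ' := by
    intro γ hγ γ' hγ' h
    rw [← hspan γ hγ, ← hspan γ' hγ']
    refine Finset.sum_congr rfl fun i _ => ?_
    have h1 := hm_apply γ hγ i
    have h2 := hm_apply γ' hγ' i
    rw [h] at h1
    have : a γ i = a γ' i := by linarith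
    rw [this]
  set D' : MvPolynomial (Fin k) ℤ := ∑ γ ∈ F, MvPolynomial.monomial (m γ) (x γ true) with hD'
  set C' : MvPolynomial (Fin k) ℤ := - ∑ γ ∈ F, MvPolynomial.monomial (m γ) (x γ false) with hC'
  have hco : ∀ (β : Bool), ∀ γ ∈ F,
      (∑ γ ∈ F, MvPolynomial.monomial (m γ) (x γ β)).coeff (m γ) = x γ β := by
    intro β γ hγ
    rw [MvPolynomial.coeff_sum, Finset.sum_eq_single_of_mem γ hγ]
    · simp
    · intro γ' hγ' hne
      rw [MvPolynomial.coeff_monomial, if_neg]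
      intro h
      exact hne (hm_inj γ' hγ' γ hγ h)
  have hne_or : C' ≠ 0 ∨ D' ≠ 0 := by
    obtain ⟨γ, hγ, β, hβ⟩ := hx
    cases β with
    | false =>
      left
      intro h0
      apply hβ
      rw [← hco false γ hγ]
      have : (∑ γ ∈ F, MvPolynomial.monomial (m γ) (x γ false)) = 0 := by
        rw [hC'] at h0
        exact neg_eq_zero.1 h0
      rw [this]
      simp
    | true =>
      right
      intro h0
      apply hβ
      rw [← hco true γ hγ]
      rw [← hD', h0]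
      simp
  -- the relation between polynomials
  have hpoly : ∀ᶠ n in (hyperfilter ℕ : Filter ℕ), spec (e n) D' * A n = spec (e n) C' * B n := by
    filter_upwards [hrel, hcoord] with n hr hc
    have hE : ∀ γ ∈ F, ((∑ i, m γ i * e n i : ℕ) : ℤ) = rep γ n + (a0 : ℤ) * ∑ i, (e n i : ℤ) := by
      intro γ hγ
      push_cast
      rw [← hc γ hγ, Finset.mul_sum, ← Finset.sum_add_distrib]
      refine Finset.sum_congr rfl fun i _ => ?_
      rw [hm_apply γ hγ i]
      ring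
    have hs1 : ∀ β, spec (e n) (∑ γ ∈ F, MvPolynomial.monomial (m γ) (x γ β)) =
        ∑ γ ∈ F, Polynomial.C (x γ β) * X ^ (∑ i, m γ i * e n i) := by
      intro β
      rw [map_sum]
      exact Finset.sum_congr rfl fun γ _ => spec_monomial _ _ _
    rw [hC', map_neg, neg_mul, eq_neg_iff_add_eq_zero, hD', hs1 true, hs1 false]
    ext M
    rw [Polynomial.coeff_add, Finset.sum_mul, Finset.sum_mul, Polynomial.finset_sum_coeff,
      Polynomial.finset_sum_coeff, Polynomial.coeff_zero, ← Finset.sum_add_distrib]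
    rw [← hr ((M : ℤ) - (a0 : ℤ) * ∑ i, (e n i : ℤ))]
    refine Finset.sum_congr rfl fun γ hγ => ?_
    rw [coeff_mono_mul, coeff_mono_mul, hE γ hγ]
    have : (M : ℤ) - (rep γ n + (a0 : ℤ) * ∑ i, (e n i : ℤ)) =
        (M : ℤ) - (a0 : ℤ) * ∑ i, (e n i : ℤ) - rep γ n := by ring
    rw [this]
  have hboth : C' ≠ 0 ∧ D' ≠ 0 := by
    rcases hne_or with h | h
    · refine ⟨h, ?_⟩
      intro h0
      obtain ⟨n, hn1, hn2⟩ := ((spec_ne_zero' _ e hAI C' h).and hpoly).exists
      rw [h0, map_zero, zero_mul] at hn2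
      exact (mul_ne_zero hn1 (hB n)) hn2.symm
    · refine ⟨?_, h⟩
      intro h0
      obtain ⟨n, hn1, hn2⟩ := ((spec_ne_zero' _ e hAI D' h).and hpoly).exists
      rw [h0, map_zero, zero_mul] at hn2
      exact (mul_ne_zero hn1 (hA n)) hn2
  obtain ⟨C, D, T, hCD, hTC, hTD⟩ := UniqueFactorizationMonoid.exists_reduced_factors C' hboth.1 D'
  have hT : T ≠ 0 := by
    rintro rfl
    rw [zero_mul] at hTC
    exact hboth.1 hTC.symm
  have hC : C ≠ 0 := by
    rintro rfl
    rw [mul_zero] at hTC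
    exact hboth.1 hTC.symm
  have hD : D ≠ 0 := by
    rintro rfl
    rw [mul_zero] at hTD
    exact hboth.2 hTD.symm
  refine ⟨k, e, C, D, hk, hC, hD, hCD, hAI, ?_⟩
  filter_upwards [hpoly, spec_ne_zero' _ e hAI T hT] with n hn hTn
  rw [← hTC, ← hTD, map_mul, map_mul, mul_assoc, mul_assoc] at hn
  exact mul_left_cancel₀ hTn hn

end

end Pool.Agent.H261R2.CM
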