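import Pool.Agent.H2.L.R_seed8.H261R2.CM.A
import Pool.Agent.H2.L.R_seed8.H261R2.CM.B
import Pool.Agent.H2.L.R_seed8.H261R2.CM.H1Lat

/-! # Task H1, part 2: the Gram determinant inequality for an abstract family (helper109) -/

set_option autoImplicit false

namespace Pool.Agent.H261R2.CM.H1

open Polynomial Matrix
open scoped ComplexOrder

theorem gram_upper_abs {ι κ : Type*} [Fintype ι] [DecidableEq ι] [Fintype κ] [DecidableEq κ]
    (Y : Matrix κ ι ℤ) (E : ι → ℤ → ℤ) (hm : ∀ i, ∀ γ < 0, E i γ = 0)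
    (hYE : ∀ t γ, ∑ b, Y t b * E b γ = 0)
    (hker : ∀ x : ι → ℤ, (∀ γ, ∑ b, x b * E b γ = 0) → ∃ a : κ → ℤ, x = a ᵥ* Y)
    (p : ℂ[X]) (c : ℝ) (hc : 0 < c) (hp : c ≤ ‖p.coeff 0‖)
    (hW : ∀ b, ∀ (n : ℕ) (N : Fin n → ℤ), Function.Injective N →
      ∑ j, ‖conv p (fun γ => ((E b γ : ℤ) : ℂ)) (N j)‖ ^ 2 ≤ 1)
    (r : ℕ) (hr : Fintype.card κ + r = Fintype.card ι) (hr0 : 0 < r) :
    (((Y * Yᵀ).det : ℤ) : ℝ) ≤ ((Fintype.card ι : ℝ) / (c ^ 2 * r)) ^ r := by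
  classical
  by_cases hY : (Y * Yᵀ).det = 0
  · rw [hY]
    simp only [Int.cast_zero]
    positivity
  obtain ⟨r', hr'⟩ : ∃ r' : ℕ, Module.finrank ℂ
      (Submodule.span ℂ (Set.range fun i => fun γ => ((E i γ : ℤ) : ℂ))) = r' := ⟨_, rfl⟩
  have key := level_gram E 0 hm r' hr' p
  have hEV : ∀ b, (fun γ => ((E b γ : ℤ) : ℂ)) ∈
    Submodule.span ℂ (Set.range fun i => fun γ => ((E i γ : ℤ) : ℂ)) := fun b => Submodule.subset_span ⟨b, rfl⟩
  generalize (Submodule.span ℂ (Set.range fun i => fun γ => ((E i γ : ℤ) : ℂ))) = V at key hEV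
  obtain ⟨N, hN, -, hpiv, ⟨T, hT, hconv⟩, hlow⟩ := key
  set G : Matrix ι (Fin r') ℤ := Matrix.of fun b j => E b (N j) with hG
  have hYG : Y * G = 0 := by
    ext t j
    rw [Matrix.mul_apply]
    exact hYE t (N j)
  have hkerG : ∀ x : ι → ℤ, x ᵥ* G = 0 → ∃ a : κ → ℤ, x = a ᵥ* Y := by
    intro x hx
    apply hker
    set v : ℤ → ℂ := ∑ b, (x b : ℂ) • (fun γ => ((E b γ : ℤ) : ℂ)) with hv
    have hvval : ∀ γ, v γ = ((∑ b, x b * E b γ : ℤ) : ℂ) := by
      intro γ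
      rw [hv, Finset.sum_apply]
      push_cast
      rfl
    have h1 : v ∈ V := Submodule.sum_mem _ fun b _ => Submodule.smul_mem _ _ (hEV b)
    have h2 : v = 0 := by
      apply hpiv v h1
      intro j
      rw [hvval]
      have := congrFun hx j
      rw [Matrix.vecMul, dotProduct] at this
      simp only [hG, Matrix.of_apply, Pi.zero_apply] at this
      rw [this]
      simp
    intro γ
    have h3 := hvval γ
    rw [h2] at h3
    simp only [Pi.zero_apply] at h3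
    exact_mod_cast h3.symm
  set W : Matrix ι (Fin r') ℂ := Matrix.of fun b j => conv p (fun γ => ((E b γ : ℤ) : ℂ)) (N j) with hWdef
  have hWG : W = (G.map (Int.castRingHom ℂ)) * T := by
    ext b j
    rw [Matrix.mul_apply]
    simp only [hWdef, Matrix.of_apply]
    rw [hconv _ (hEV b) j]
    rfl
  set g := (Gᵀ * G).det with hg
  have hGH : (G.map (Int.castRingHom ℂ))ᴴ * (G.map (Int.castRingHom ℂ)) =
      (Gᵀ * G).map (Int.castRingHom ℂ) := by
    have h1 : (G.map (Int.castRingHom ℂ))ᴴ = Gᵀ.map (Int.castRingHom ℂ) := by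
      ext i j
      simp [Matrix.conjTranspose_apply]
    rw [h1, Matrix.map_mul]
  have hdet : (Wᴴ * W).det = ((‖p.coeff 0‖ ^ (2 * r') * (g : ℝ) : ℝ) : ℂ) := by
    have h1 : Wᴴ * W = Tᴴ * ((Gᵀ * G).map (Int.castRingHom ℂ)) * T := by
      rw [hWG, Matrix.conjTranspose_mul, ← hGH]
      simp only [Matrix.mul_assoc]
    have h2 : ((Gᵀ * G).map (Int.castRingHom ℂ)).det = ((g : ℤ) : ℂ) := by
      have := (Int.castRingHom ℂ).map_det (Gᵀ * G)
      rw [hg]
      exact this.symm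
    rw [h1, Matrix.det_mul, Matrix.det_mul, h2, Matrix.det_conjTranspose, hT]
    have h3 : star (p.coeff 0 ^ r') * p.coeff 0 ^ r' = ((‖p.coeff 0‖ ^ (2 * r') : ℝ) : ℂ) := by
      have := Complex.conj_mul' (p.coeff 0 ^ r')
      rw [norm_pow] at this
      rw [← starRingEnd_apply, this]
      push_cast
      ring
    calc star (p.coeff 0 ^ r') * ((g : ℤ) : ℂ) * p.coeff 0 ^ r'
        = (star (p.coeff 0 ^ r') * p.coeff 0 ^ r') * ((g : ℤ) : ℂ) := by ring
      _ = _ := by rw [h3]; push_cast; ring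
  have hre : (Wᴴ * W).det.re = ‖p.coeff 0‖ ^ (2 * r') * (g : ℝ) := by
    rw [hdet, Complex.ofReal_re]
  have hp0 : 0 < ‖p.coeff 0‖ := lt_of_lt_of_le hc hp
  have hlow' : ‖p.coeff 0‖ ^ (2 * r') ≤ (Wᴴ * W).det.re := by
    have := hlow r' le_rfl
    simpa using this
  have hg1 : (1 : ℝ) ≤ (g : ℝ) := by
    rw [hre] at hlow'
    have h1 : 0 < ‖p.coeff 0‖ ^ (2 * r') := by positivity
    exact le_of_mul_le_mul_left (by linarith) h1
  have hg0 : (Gᵀ * G).det ≠ 0 := by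
    intro h
    rw [← hg] at h
    rw [h] at hg1
    norm_num at hg1
  obtain ⟨hcard, hle⟩ := lattice_ineq r' Y G hYG hkerG hY hg0
  have hrr : r' = r := by omega
  have hne : Nonempty (Fin r') := ⟨⟨0, by omega⟩⟩
  have hA := det_gram_scaled W (fun _ => 1) (fun _ => one_pos)
  simp only [one_pow, Finset.prod_const_one, one_mul, Fintype.card_fin] at hA
  have hsum : ∑ j, ∑ i, ‖W i j‖ ^ 2 ≤ (Fintype.card ι : ℝ) := by
    rw [Finset.sum_comm]
    calc ∑ i, ∑ j, ‖W i j‖ ^ 2 ≤ ∑ _i : ι, (1 : ℝ) :=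
          Finset.sum_le_sum fun i _ => hW i r' N hN.injective
      _ = (Fintype.card ι : ℝ) := by simp
  have hr'0 : (0 : ℝ) < r' := by exact_mod_cast (by omega : 0 < r')
  have h5 : ‖p.coeff 0‖ ^ (2 * r') * (g : ℝ) ≤ ((Fintype.card ι : ℝ) / r') ^ r' := by
    rw [← hre]
    refine hA.trans ?_
    gcongr
  have h6 : (c ^ 2) ^ r' * (g : ℝ) ≤ ((Fintype.card ι : ℝ) / r') ^ r' := by
    refine le_trans ?_ h5
    rw [pow_mul]
    gcongr
  have h7 : (g : ℝ) ≤ ((Fintype.card ι : ℝ) / (c ^ 2 * r')) ^ r' := by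
    have h8 : ((Fintype.card ι : ℝ) / (c ^ 2 * r')) ^ r' =
        ((Fintype.card ι : ℝ) / r') ^ r' / (c ^ 2) ^ r' := by
      rw [← div_pow]
      congr 1
      field_simp
    rw [h8, le_div_iff₀ (by positivity)]
    linarith
  rw [← hrr]
  calc (((Y * Yᵀ).det : ℤ) : ℝ) ≤ (g : ℝ) := by exact_mod_cast hle
    _ ≤ _ := h7

end Pool.Agent.H261R2.CM.H1
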