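import Pool.Agent.H2.L.R_seed8.H261R2.CM.H1
import Pool.Agent.H2.L.R_seed8.H261R2.CM.K1Abs
import Pool.Agent.H2.L.R_seed8.H261R2.CM.Defs2
import Pool.Agent.H2.L.R_seed8.H261R2.CM.H2a

/-! # Task K1: the final inequality with the mass condition on the pair (after helper109) -/

set_option autoImplicit false

namespace Pool.Agent.H261R2.CM

open Polynomial Matrix Filter MeasureTheory Topology
open scoped ComplexOrder

open H1

/-- H1: upper bound. -/
theorem gram_upper_mass {k : ℕ} (C D : MvPolynomial (Fin k) ℤ) (hC : C ≠ 0) (hD : D ≠ 0)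
    (hCD : IsRelPrime C D) (R : ℕ) (hR : ∀ i, dm C D i < R) (e : Fin k → ℕ)
    (he : ∀ s : Fin k → ℤ, (∀ i, |s i| ≤ 4 * R) → s ≠ 0 → ∑ i, s i * (e i : ℤ) ≠ 0)
    (A B : ℤ[X]) (hA : A ≠ 0) (hB : B ≠ 0) (hrel : spec e D * A = spec e C * B)
    (p : ℂ[X]) (c : ℝ) (hc : 0 < c) (hp : c ≤ ‖p.coeff 0‖) 
    (hmass : mass (p * toC A) + mass (p * toC B) ≤ 2) (r : ℕ) (hr : r + ∏ i, (R - dm C D i) = 2 * R ^ k) :
    (gramY C D R).det ≤ ((2 * (R : ℝ) ^ k) / (c ^ 2 * r)) ^ r := by
  classical
  have hRk : 0 < R ^ k := by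
    rcases Nat.eq_zero_or_pos R with h | h
    · subst h
      rcases Nat.eq_zero_or_pos k with h2 | h2
      · subst h2; simp
      · exact absurd (hR ⟨0, h2⟩) (Nat.not_lt_zero _)
    · positivity
  have hprod : ∏ i, (R - dm C D i) ≤ R ^ k := by
    calc ∏ i, (R - dm C D i) ≤ ∏ _i : Fin k, R := Finset.prod_le_prod' fun i _ => Nat.sub_le _ _
      _ = R ^ k := by simp
  have hr0 : 0 < r := by omega
  -- the family of sequences
  let AA : Bool → ℤ[X] := fun β => if β then A else -B
  let E : (Fin k → Fin R) × Bool → ℤ → ℤ :=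
    fun b γ => zc (AA b.2) (γ - (dot e (fb (s := fun _ => R) b.1) : ℕ))
  let Y : Matrix (Box C D R) ((Fin k → Fin R) × Bool) ℤ := Matrix.of fun t b =>
    (MvPolynomial.monomial (fb t) 1 * (if b.2 then D else C)).coeff (fb (s := fun _ => R) b.1)
  have hsumE : ∀ (x : (Fin k → Fin R) × Bool → ℤ) (γ : ℤ), ∑ b, x b * E b γ =
      zc (spec e (pol fun u => x (u, true)) * A - spec e (pol fun u => x (u, false)) * B) γ := by
    intro x γ
    have h1 : spec e (pol fun u => x (u, true)) * A - spec e (pol fun u => x (u, false)) * B =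
        ∑ b : (Fin k → Fin R) × Bool, Polynomial.C (x b) *
          (X ^ (dot e (fb (s := fun _ => R) b.1)) * AA b.2) := by
      rw [Fintype.sum_prod_type, spec_pol, spec_pol, Finset.sum_mul, Finset.sum_mul,
        ← Finset.sum_sub_distrib]
      apply Finset.sum_congr rfl
      intro u _
      simp only [Fintype.sum_bool, AA]
      simp only [if_true, Bool.false_eq_true, if_false]
      ring
    rw [h1, zc_sum]
    apply Finset.sum_congr rfl
    intro b _
    rw [zc_C_mul, zc_X_pow_mul]
  have hfbR : ∀ (t : Box C D R) (i : Fin k), (fb t) i + dm C D i < R := by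
    intro t i
    rw [fb_apply]
    have := (t i).isLt
    omega
  have hsuppD : ∀ m ∈ D.support, ∀ i, m i ≤ dm C D i := by
    intro m hm i
    exact (MvPolynomial.monomial_le_degreeOf i hm).trans (le_max_right _ _)
  have hsuppC : ∀ m ∈ C.support, ∀ i, m i ≤ dm C D i := by
    intro m hm i
    exact (MvPolynomial.monomial_le_degreeOf i hm).trans (le_max_left _ _)
  have hshD : ∀ (t : Box C D R), ∀ m ∈ (MvPolynomial.monomial (fb t) 1 * D).support, ∀ i, m i < R := by
    intro t m hm i
    obtain ⟨b, hb, rfl⟩ := supp_shift D (fb t) m hm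
    have h1 := hfbR t i
    have h2 := hsuppD b hb i
    rw [Finsupp.add_apply]
    omega
  have hshC : ∀ (t : Box C D R), ∀ m ∈ (MvPolynomial.monomial (fb t) 1 * C).support, ∀ i, m i < R := by
    intro t m hm i
    obtain ⟨b, hb, rfl⟩ := supp_shift C (fb t) m hm
    have h1 := hfbR t i
    have h2 := hsuppC b hb i
    rw [Finsupp.add_apply]
    omega
  have hYpolD : ∀ t : Box C D R, (pol fun u : Fin k → Fin R => Y t (u, true)) =
      MvPolynomial.monomial (fb t) 1 * D := by
    intro t
    have := pol_coeff (R := R) (MvPolynomial.monomial (fb t) 1 * D) (hshD t)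
    rw [← this]
    congr 1
  have hYpolC : ∀ t : Box C D R, (pol fun u : Fin k → Fin R => Y t (u, false)) =
      MvPolynomial.monomial (fb t) 1 * C := by
    intro t
    have := pol_coeff (R := R) (MvPolynomial.monomial (fb t) 1 * C) (hshC t)
    rw [← this]
    congr 1
  have hYE : ∀ t γ, ∑ b, Y t b * E b γ = 0 := by
    intro t γ
    rw [hsumE (fun b => Y t b) γ, hYpolD, hYpolC, map_mul, map_mul, mul_assoc, mul_assoc, hrel,
      sub_self, zc_zero]
  have hker : ∀ x : (Fin k → Fin R) × Bool → ℤ, (∀ γ, ∑ b, x b * E b γ = 0) →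
      ∃ a : Box C D R → ℤ, x = a ᵥ* Y := by
    intro x hx
    have h1 : spec e (pol fun u => x (u, true)) * A - spec e (pol fun u => x (u, false)) * B = 0 := by
      apply eq_zero_of_zc
      intro N
      rw [← hsumE x N]
      exact hx N
    set D' := pol (fun u => x (u, true)) with hD'
    set C' := pol (fun u => x (u, false)) with hC'
    have h2 : spec e (D' * C - D * C') = 0 := by
      have h3 : spec e (D' * C - D * C') * B = 0 := by
        rw [map_sub, map_mul, map_mul]
        have h4 : spec e D' * A = spec e C' * B := sub_eq_zero.mp h1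
        linear_combination (spec e D) * h4 - (spec e D') * hrel
      exact (mul_eq_zero.mp h3).resolve_right hB
    have hDC : D' * C = D * C' := by
      rw [← sub_eq_zero]
      apply spec_eq_zero e _ _ h2
      have hexp : ∀ m ∈ (D' * C - D * C').support, ∀ i, m i < 2 * R := by
        intro m hm i
        have h5 : m ∈ (D' * C).support ∪ (D * C').support := MvPolynomial.support_sub _ _ _ hm
        rcases Finset.mem_union.mp h5 with h6 | h6
        · have h7 := MvPolynomial.support_mul _ _ h6
          obtain ⟨a, ha, b, hb, rfl⟩ := Finset.mem_add.mp h7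
          have h8 := supp_pol _ a ha i
          have h9 := hsuppC b hb i
          have h10 := hR i
          rw [Finsupp.add_apply]
          omega
        · have h7 := MvPolynomial.support_mul _ _ h6
          obtain ⟨a, ha, b, hb, rfl⟩ := Finset.mem_add.mp h7
          have h8 := supp_pol _ b hb i
          have h9 := hsuppD a ha i
          have h10 := hR i
          rw [Finsupp.add_apply]
          omega
      intro m hm m' hm' hdot
      by_contra hne
      have h11 : (fun i => (m i : ℤ) - (m' i : ℤ)) ≠ 0 := by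
        intro h12
        apply hne
        ext i
        have := congrFun h12 i
        simp only [Pi.zero_apply] at this
        omega
      apply he _ _ h11
      · have h13 : (dot e m : ℤ) = dot e m' := by exact_mod_cast hdot
        rw [dot, dot] at h13
        push_cast at h13
        have h14 : ∑ i, ((m i : ℤ) - (m' i : ℤ)) * (e i : ℤ) =
            ∑ i, (e i : ℤ) * (m i : ℤ) - ∑ i, (e i : ℤ) * (m' i : ℤ) := by
          rw [← Finset.sum_sub_distrib]
          apply Finset.sum_congr rfl
          intro i _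
          ring
        rw [h14, h13, sub_self]
      · intro i
        have h15 := hexp m hm i
        have h16 := hexp m' hm' i
        rw [abs_le]
        constructor <;> omega
    have hdvd : D ∣ D' := by
      have h17 : D ∣ D' * C := ⟨C', hDC⟩
      exact hCD.symm.dvd_of_dvd_mul_right h17
    obtain ⟨T, hT⟩ := hdvd
    have hT' : C' = C * T := by
      have h18 : D * (C' - C * T) = 0 := by
        rw [mul_sub, ← hDC, hT]
        ring
      exact sub_eq_zero.mp ((mul_eq_zero.mp h18).resolve_left hD)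
    have hTsupp : ∀ m ∈ T.support, ∀ i, m i < R - dm C D i := by
      intro m hm i
      have hT0 : T ≠ 0 := by
        rintro rfl
        simp at hm
      have hR0 : 0 < R := lt_of_le_of_lt (Nat.zero_le _) (hR i)
      have h19 : D'.degreeOf i < R := (MvPolynomial.degreeOf_lt_iff hR0).mpr fun m hm => supp_pol _ m hm i
      have h20 : C'.degreeOf i < R := (MvPolynomial.degreeOf_lt_iff hR0).mpr fun m hm => supp_pol _ m hm i
      rw [hT, MvPolynomial.degreeOf_mul_eq hD hT0] at h19
      rw [hT', MvPolynomial.degreeOf_mul_eq hC hT0] at h20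
      have h21 := MvPolynomial.monomial_le_degreeOf i hm
      have h22 : T.degreeOf i + dm C D i < R := by
        rw [dm]
        rcases max_cases (C.degreeOf i) (D.degreeOf i) with h | h <;> rw [h.1] <;> omega
      omega
    have hTsum := sum_box (fun i => R - dm C D i) T hTsupp
    refine ⟨fun t => T.coeff (fb t), ?_⟩
    have key : ∀ (P : MvPolynomial (Fin k) ℤ) (u : Fin k → Fin R),
        ∑ t : Box C D R, T.coeff (fb t) * (MvPolynomial.monomial (fb t) 1 * P).coeff (fb (s := fun _ => R) u) =
        (P * T).coeff (fb (s := fun _ => R) u) := by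
      intro P u
      conv_rhs => rw [mul_comm, ← hTsum, Finset.sum_mul, MvPolynomial.coeff_sum]
      apply Finset.sum_congr rfl
      intro t _
      have h23 : MvPolynomial.monomial (fb t) (T.coeff (fb t)) * P =
          MvPolynomial.C (T.coeff (fb t)) * (MvPolynomial.monomial (fb t) 1 * P) := by
        rw [← mul_assoc, MvPolynomial.C_mul_monomial, mul_one]
      rw [h23, MvPolynomial.coeff_C_mul]
    funext b
    obtain ⟨u, β⟩ := b
    rw [Matrix.vecMul, dotProduct]
    cases β with
    | true =>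
      have := key D u
      simp only [Y, Matrix.of_apply, if_true]
      rw [this, ← hT, hD', coeff_pol]
    | false =>
      have := key C u
      simp only [Y, Matrix.of_apply, Bool.false_eq_true, if_false]
      rw [this, ← hT', hC', coeff_pol]
  have hm0 : ∀ b, ∀ γ < 0, E b γ = 0 := by
    intro b γ hγ
    exact zc_neg_eq _ (by omega)
  have hW : ∀ b, ∀ (n : ℕ) (N : Fin n → ℤ), Function.Injective N →
      ∑ j, ‖conv p (fun γ => ((E b γ : ℤ) : ℂ)) (N j)‖ ^ 2 ≤
        if b.2 then mass (p * toC A) else mass (p * toC B) := by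
    intro b n N hN
    have h24 : ∀ N', conv p (fun γ => ((E b γ : ℤ) : ℂ)) N' =
        zc (p * toC (AA b.2)) (N' - (dot e (fb (s := fun _ => R) b.1) : ℕ)) := by
      intro N'
      rw [← conv_zc]
      congr 1
      funext γ
      exact zc_toC _ _
    simp only [h24]
    have h25 := sum_zc_le (p * toC (AA b.2)) n
      (fun j => N j - (dot e (fb (s := fun _ => R) b.1) : ℕ)) (fun a a' h => hN (by
        simpa using h))
    refine h25.trans ?_
    obtain ⟨u, β⟩ := b
    cases β with
    | true => exact le_rfl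
    | false =>
      have h26 : p * toC (AA (u, false).2) = -(p * toC B) := by
        simp [AA, toC]
      rw [h26]
      simp [mass]
  have hcard : Fintype.card (Box C D R) + r = Fintype.card ((Fin k → Fin R) × Bool) := by
    simp only [Fintype.card_prod, Fintype.card_pi, Fintype.card_fin, Fintype.card_bool]
    simp only [Finset.prod_const, Finset.card_univ, Fintype.card_fin]
    omega
  have hcardι : (Fintype.card ((Fin k → Fin R) × Bool) : ℝ) = 2 * (R : ℝ) ^ k := by
    simp only [Fintype.card_prod, Fintype.card_pi, Fintype.card_fin, Fintype.card_bool]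
    simp only [Finset.prod_const, Finset.card_univ, Fintype.card_fin]
    push_cast
    ring
  have hμ : ∑ b : (Fin k → Fin R) × Bool, (if b.2 then mass (p * toC A) else mass (p * toC B)) ≤
      (Fintype.card ((Fin k → Fin R) × Bool) : ℝ) := by
    rw [hcardι, Fintype.sum_prod_type]
    simp only [Fintype.sum_bool, if_true, Bool.false_eq_true, if_false, Finset.sum_const,
      Finset.card_univ, Fintype.card_pi, Fintype.card_fin, Finset.prod_const, nsmul_eq_mul]
    push_cast
    have h30 : (0 : ℝ) ≤ (R : ℝ) ^ k := by positivity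
    nlinarith [mul_le_mul_of_nonneg_left hmass h30]
  have main := gram_upper_abs_mass Y E hm0 hYE hker p c hc hp _ hμ hW r hcard hr0
  rw [hcardι] at main
  have hgram : gramY C D R = (Y * Yᵀ).map (Int.castRingHom ℝ) := by
    ext s t
    rw [gramY, Matrix.of_apply, Matrix.map_apply, Matrix.mul_apply]
    have h27 : ∑ b, Y s b * Yᵀ b t =
        acorr C (fun i => ((s i : ℕ) : ℤ) - ((t i : ℕ) : ℤ)) +
          acorr D (fun i => ((s i : ℕ) : ℤ) - ((t i : ℕ) : ℤ)) := by
      rw [Fintype.sum_prod_type]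
      have h28 := corr (R := R) C (fb s) (fb t) (fun m hm i => by
        have h1 := hfbR s i
        have h2 := hsuppC m hm i
        omega)
      have h29 := corr (R := R) D (fb s) (fb t) (fun m hm i => by
        have h1 := hfbR s i
        have h2 := hsuppD m hm i
        omega)
      simp only [fb_apply] at h28 h29
      rw [← h28, ← h29, ← Finset.sum_add_distrib]
      apply Finset.sum_congr rfl
      intro u _
      simp only [Fintype.sum_bool, Y, Matrix.transpose_apply, Matrix.of_apply, if_true,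
        Bool.false_eq_true, if_false]
      ring
    rw [h27]
    rfl
  rw [hgram]
  have h30 : ((Y * Yᵀ).map (Int.castRingHom ℝ)).det = (((Y * Yᵀ).det : ℤ) : ℝ) :=
    ((Int.castRingHom ℝ).map_det (Y * Yᵀ)).symm
  rw [h30]
  exact main


theorem final_ineq_mass {k : ℕ} (C D : MvPolynomial (Fin k) ℤ) (hC : C ≠ 0) (hD : D ≠ 0)
    (hCD : IsRelPrime C D) (𝓕 : Filter ℕ) [𝓕.NeBot] (e : ℕ → Fin k → ℕ) (he : AsympIndep 𝓕 e)
    (A B : ℕ → ℤ[X]) (hA : ∀ n, A n ≠ 0) (hB : ∀ n, B n ≠ 0)
    (hrel : ∀ᶠ n in 𝓕, spec (e n) D * A n = spec (e n) C * B n)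
    (p : ℕ → ℂ[X]) (c : ℝ) (hc : 0 < c) (hp : ∀ᶠ n in 𝓕, c ≤ ‖(p n).coeff 0‖)
    (hmass : ∀ n, mass (p n * toC (A n)) + mass (p n * toC (B n)) ≤ 2) (ℓ : ℝ)
    (hℓ : ∀ δ > 0, ℓ ≤ ∫ t in Set.Icc (0 : Fin k → ℝ) 1,
      Real.log (‖tv C t‖ ^ 2 + ‖tv D t‖ ^ 2 + δ)) :
    ℓ ≤ Real.log 2 - 2 * Real.log c := by
  classical
  -- the inequality for every large R
  have hmain : ∀ R : ℕ, 1 ≤ R → (∀ i, dm C D i < R) →
      (∏ i, ((R - dm C D i : ℕ) : ℝ)) * ℓ ≤
        (2 * (R : ℝ) ^ k - ∏ i, ((R - dm C D i : ℕ) : ℝ)) *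
          Real.log ((2 * (R : ℝ) ^ k) /
            (c ^ 2 * (2 * (R : ℝ) ^ k - ∏ i, ((R - dm C D i : ℕ) : ℝ)))) := by
    intro R hR1 hR
    have hfin : Set.Finite {s : Fin k → ℤ | ∀ i, |s i| ≤ 4 * (R : ℤ)} := by
      have h1 : Set.Finite (Set.Icc (fun _ : Fin k => -(4 * (R : ℤ))) (fun _ => 4 * (R : ℤ))) :=
        Set.finite_Icc _ _
      refine h1.subset ?_
      intro s hs
      rw [Set.mem_Icc, Pi.le_def, Pi.le_def]
      exact ⟨fun i => (abs_le.mp (hs i)).1, fun i => (abs_le.mp (hs i)).2⟩
    have hev : ∀ᶠ n in 𝓕, ∀ s ∈ {s : Fin k → ℤ | ∀ i, |s i| ≤ 4 * (R : ℤ)}, s ≠ 0 →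
        ∑ i, s i * (e n i : ℤ) ≠ 0 := by
      rw [Filter.eventually_all_finite hfin]
      intro s _
      by_cases hs0 : s = 0
      · exact Filter.Eventually.of_forall fun n h => absurd hs0 h
      · filter_upwards [he s hs0] with n hn _
        exact hn
    obtain ⟨n, hn1, hn2, hn3⟩ := (hev.and (hrel.and hp)).exists
    have hle : ∏ i, (R - dm C D i) ≤ R ^ k := by
      calc ∏ i, (R - dm C D i) ≤ ∏ _i : Fin k, R :=
            Finset.prod_le_prod' fun i _ => Nat.sub_le _ _
        _ = R ^ k := by simp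
    have hRk : 0 < R ^ k := Nat.pow_pos (by omega)
    set r : ℕ := 2 * R ^ k - ∏ i, (R - dm C D i) with hr
    have hr' : r + ∏ i, (R - dm C D i) = 2 * R ^ k := by omega
    have hrpos : 0 < r := by omega
    have hrR : (2 * (R : ℝ) ^ k - ∏ i, ((R - dm C D i : ℕ) : ℝ)) = (r : ℝ) := by
      have h1 : ((r + ∏ i, (R - dm C D i) : ℕ) : ℝ) = ((2 * R ^ k : ℕ) : ℝ) := by rw [hr']
      push_cast at h1
      linarith
    have hup := gram_upper_mass C D hC hD hCD R hR (e n) (fun s hs hs0 => hn1 s hs hs0) (A n) (B n)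
      (hA n) (hB n) hn2 (p n) c hc hn3 (hmass n) r hr'
    have hlo := gram_lower C D hC R ℓ hℓ
    have hcomb := le_trans hlo hup
    have hlog := Real.log_le_log (Real.exp_pos _) hcomb
    rw [Real.log_exp, Real.log_pow] at hlog
    rw [hrR]
    exact hlog
  -- asymptotics
  have hf : Tendsto (fun R : ℕ => (∏ i, ((R - dm C D i : ℕ) : ℝ)) / (R : ℝ) ^ k) atTop (𝓝 1) := by
    have h1 : ∀ i : Fin k, Tendsto (fun R : ℕ => ((R - dm C D i : ℕ) : ℝ) / (R : ℝ)) atTop (𝓝 1) := by
      intro i
      have h2 : Tendsto (fun R : ℕ => 1 - (dm C D i : ℝ) / (R : ℝ)) atTop (𝓝 (1 - 0)) :=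
        tendsto_const_nhds.sub (tendsto_const_div_atTop_nhds_zero_nat _)
      rw [sub_zero] at h2
      refine h2.congr' ?_
      filter_upwards [eventually_ge_atTop (dm C D i + 1)] with R hR
      have hRpos : (0 : ℝ) < R := by
        have : 0 < R := by omega
        exact_mod_cast this
      rw [Nat.cast_sub (by omega)]
      field_simp
    have h3 : Tendsto (fun R : ℕ => ∏ i : Fin k, (((R - dm C D i : ℕ) : ℝ) / (R : ℝ))) atTop
        (𝓝 (∏ _i : Fin k, 1)) := tendsto_finsetProd _ fun i _ => h1 i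
    rw [Finset.prod_const_one] at h3
    refine h3.congr fun R => ?_
    rw [Finset.prod_div_distrib]
    simp
  let g : ℝ → ℝ := fun x => (2 - x) * Real.log (2 / (c ^ 2 * (2 - x))) - x * ℓ
  have hg : ContinuousAt g 1 := by
    have hc2 : c ^ 2 * (2 - 1) ≠ 0 := by
      have : 0 < c ^ 2 := by positivity
      linarith
    have hne : (2 : ℝ) / (c ^ 2 * (2 - 1)) ≠ 0 := div_ne_zero two_ne_zero hc2
    refine ContinuousAt.sub ?_ (continuousAt_id.mul continuousAt_const)
    refine ContinuousAt.mul (continuousAt_const.sub continuousAt_id) ?_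
    refine ContinuousAt.log ?_ hne
    exact ContinuousAt.div continuousAt_const
      (continuousAt_const.mul (continuousAt_const.sub continuousAt_id)) hc2
  have hlim : Tendsto (fun R : ℕ => g ((∏ i, ((R - dm C D i : ℕ) : ℝ)) / (R : ℝ) ^ k)) atTop
      (𝓝 (g 1)) := hg.tendsto.comp hf
  have hnonneg : 0 ≤ g 1 := by
    refine ge_of_tendsto hlim ?_
    have hbig : ∀ᶠ R : ℕ in atTop, ∀ i, dm C D i < R := by
      rw [Filter.eventually_all]
      intro i
      exact eventually_gt_atTop _
    filter_upwards [hbig, eventually_ge_atTop 1] with R hR hR1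
    have hRpos : (0 : ℝ) < (R : ℝ) ^ k := by
      have : (0 : ℝ) < R := by exact_mod_cast (by omega : 0 < R)
      positivity
    have h1 := hmain R hR1 hR
    set ρ : ℝ := ∏ i, ((R - dm C D i : ℕ) : ℝ) with hρ
    have h2 : (2 * (R : ℝ) ^ k) / (c ^ 2 * (2 * (R : ℝ) ^ k - ρ)) =
        2 / (c ^ 2 * (2 - ρ / (R : ℝ) ^ k)) := by
      have h3 : 2 * (R : ℝ) ^ k - ρ = (R : ℝ) ^ k * (2 - ρ / (R : ℝ) ^ k) := by
        field_simp
      rw [h3, ← mul_assoc, mul_comm (c ^ 2) ((R : ℝ) ^ k), mul_assoc, mul_comm (2 : ℝ),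
        mul_div_mul_left _ _ hRpos.ne']
    rw [h2] at h1
    have h4 : g (ρ / (R : ℝ) ^ k) = ((2 * (R : ℝ) ^ k - ρ) *
        Real.log (2 / (c ^ 2 * (2 - ρ / (R : ℝ) ^ k))) - ρ * ℓ) / (R : ℝ) ^ k := by
      simp only [g]
      field_simp
    rw [h4]
    exact div_nonneg (by linarith) hRpos.le
  have hg1 : g 1 = Real.log 2 - 2 * Real.log c - ℓ := by
    simp only [g]
    have : (2 : ℝ) - 1 = 1 := by norm_num
    rw [this, mul_one, one_mul, one_mul, Real.log_div two_ne_zero (by positivity), Real.log_pow]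
    push_cast
    ring
  rw [hg1] at hnonneg
  linarith


end Pool.Agent.H261R2.CM
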